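import Mathlib

namespace FFInterval

open Finset

/-! Weighted column construction -/

noncomputable def lft (z : ℝ) (A : Finset ℝ) (x : ℝ → ℝ) (p : ℝ) : ℝ :=
  ∑ r ∈ A with r < p, x r * z ^ (A.filter (fun s => r < s ∧ s < p)).card

noncomputable def rgt (z : ℝ) (A : Finset ℝ) (x : ℝ → ℝ) (p : ℝ) : ℝ :=
  ∑ r ∈ A with p < r, x r * z ^ (A.filter (fun s => p < s ∧ s < r)).card

noncomputable def wgt (z : ℝ) (A : Finset ℝ) (x : ℝ → ℝ) (p : ℝ) : ℝ :=
  lft z A x p + x p / z + rgt z A x p

lemma lft_nonneg {z : ℝ} (hz : 0 ≤ z) (A : Finset ℝ) {x : ℝ → ℝ} (hx : ∀ p, 0 ≤ x p) (p : ℝ) :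
    0 ≤ lft z A x p := sum_nonneg fun r _ => mul_nonneg (hx r) (pow_nonneg hz _)

lemma rgt_nonneg {z : ℝ} (hz : 0 ≤ z) (A : Finset ℝ) {x : ℝ → ℝ} (hx : ∀ p, 0 ≤ x p) (p : ℝ) :
    0 ≤ rgt z A x p := sum_nonneg fun r _ => mul_nonneg (hx r) (pow_nonneg hz _)

lemma lft_eq {z : ℝ} {A : Finset ℝ} {x : ℝ → ℝ} {p q : ℝ} (hq : q ∈ A) (hqp : q < p)
    (hno : ∀ s ∈ A, ¬ (q < s ∧ s < p)) : lft z A x p = x q + z * lft z A x q := by
  classical
  unfold lft
  have h1 : (A.filter fun r => r < p) = insert q (A.filter fun r => r < q) := by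
    ext r
    simp only [mem_filter, mem_insert]
    constructor
    · rintro ⟨hr, hrp⟩
      rcases lt_trichotomy r q with h | h | h
      · exact Or.inr ⟨hr, h⟩
      · exact Or.inl h
      · exact absurd ⟨h, hrp⟩ (hno r hr)
    · rintro (h | ⟨hr, h⟩)
      · subst h; exact ⟨hq, hqp⟩
      · exact ⟨hr, h.trans hqp⟩
  rw [h1, sum_insert (by simp)]
  congr 1
  · have : (A.filter fun s => q < s ∧ s < p) = ∅ := by
      rw [filter_eq_empty_iff]; exact fun s hs => hno s hs
    rw [this]; simp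
  · rw [mul_sum]
    refine sum_congr rfl fun r hr => ?_
    have hr' := mem_filter.1 hr
    have h2 : (A.filter fun s => r < s ∧ s < p) = insert q (A.filter fun s => r < s ∧ s < q) := by
      ext s
      simp only [mem_filter, mem_insert]
      constructor
      · rintro ⟨hs, hrs, hsp⟩
        rcases lt_trichotomy s q with h | h | h
        · exact Or.inr ⟨hs, hrs, h⟩
        · exact Or.inl h
        · exact absurd ⟨h, hsp⟩ (hno s hs)
      · rintro (h | ⟨hs, h, h'⟩)
        · subst h; exact ⟨hq, hr'.2, hqp⟩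
        · exact ⟨hs, h, h'.trans hqp⟩
    rw [h2, card_insert_of_notMem (by simp), pow_succ]
    ring

lemma rgt_eq {z : ℝ} {A : Finset ℝ} {x : ℝ → ℝ} {p q : ℝ} (hp : p ∈ A) (hqp : q < p)
    (hno : ∀ s ∈ A, ¬ (q < s ∧ s < p)) : rgt z A x q = x p + z * rgt z A x p := by
  classical
  unfold rgt
  have h1 : (A.filter fun r => q < r) = insert p (A.filter fun r => p < r) := by
    ext r
    simp only [mem_filter, mem_insert]
    constructor
    · rintro ⟨hr, hrp⟩
      rcases lt_trichotomy r p with h | h | h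
      · exact absurd ⟨hrp, h⟩ (hno r hr)
      · exact Or.inl h
      · exact Or.inr ⟨hr, h⟩
    · rintro (h | ⟨hr, h⟩)
      · subst h; exact ⟨hp, hqp⟩
      · exact ⟨hr, hqp.trans h⟩
  rw [h1, sum_insert (by simp)]
  congr 1
  · have : (A.filter fun s => q < s ∧ s < p) = ∅ := by
      rw [filter_eq_empty_iff]; exact fun s hs => hno s hs
    rw [this]; simp
  · rw [mul_sum]
    refine sum_congr rfl fun r hr => ?_
    have hr' := mem_filter.1 hr
    have h2 : (A.filter fun s => q < s ∧ s < r) = insert p (A.filter fun s => p < s ∧ s < r) := by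
      ext s
      simp only [mem_filter, mem_insert]
      constructor
      · rintro ⟨hs, hrs, hsp⟩
        rcases lt_trichotomy s p with h | h | h
        · exact absurd ⟨hrs, h⟩ (hno s hs)
        · exact Or.inl h
        · exact Or.inr ⟨hs, h, hsp⟩
      · rintro (h | ⟨hs, h, h'⟩)
        · subst h; exact ⟨hp, hqp, hr'.2⟩
        · exact ⟨hs, hqp.trans h, h'⟩
    rw [h2, card_insert_of_notMem (by simp), pow_succ]
    ring

/-- state of the process: alive points and accumulated weights -/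
noncomputable def st (z : ℝ) (x : ℕ → ℝ → ℝ) (A0 : Finset ℝ) : ℕ → Finset ℝ × (ℝ → ℝ)
  | 0 => (A0, fun _ => 0)
  | t + 1 =>
    ((st z x A0 t).1.filter fun p =>
        ((t + 1 : ℕ) : ℝ) ≤ (st z x A0 t).2 p + wgt z (st z x A0 t).1 (x t) p,
      fun p => (st z x A0 t).2 p + wgt z (st z x A0 t).1 (x t) p)

section process

variable (z : ℝ) (x : ℕ → ℝ → ℝ) (A0 : Finset ℝ)

noncomputable def Al (t : ℕ) : Finset ℝ := (st z x A0 t).1
noncomputable def Wt (t : ℕ) (p : ℝ) : ℝ := (st z x A0 t).2 p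

@[simp] lemma Al_zero : Al z x A0 0 = A0 := rfl
@[simp] lemma Wt_zero (p : ℝ) : Wt z x A0 0 p = 0 := rfl

lemma Wt_succ (t : ℕ) (p : ℝ) :
    Wt z x A0 (t + 1) p = Wt z x A0 t p + wgt z (Al z x A0 t) (x t) p := rfl

lemma mem_Al_succ {t : ℕ} {p : ℝ} :
    p ∈ Al z x A0 (t + 1) ↔ p ∈ Al z x A0 t ∧ ((t + 1 : ℕ) : ℝ) ≤ Wt z x A0 (t + 1) p := by
  rw [Wt_succ]
  exact mem_filter

lemma Al_succ_subset (t : ℕ) : Al z x A0 (t + 1) ⊆ Al z x A0 t := fun _ hp =>
  ((mem_Al_succ z x A0).1 hp).1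

lemma le_Wt {t : ℕ} {p : ℝ} (hp : p ∈ Al z x A0 t) : (t : ℝ) ≤ Wt z x A0 t p := by
  cases t with
  | zero => simp
  | succ t => exact ((mem_Al_succ z x A0).1 hp).2

lemma Al_anti {s t : ℕ} (h : s ≤ t) : Al z x A0 t ⊆ Al z x A0 s := by
  induction h with
  | refl => exact fun _ h => h
  | step _ ih => exact (Al_succ_subset z x A0 _).trans ih

variable {z} (hz0 : 0 < z) (hz1 : z ≤ 1)

include hz0 hz1

/-- the weight collected by the left neighbour slot of `p` -/
lemma left_slot {p : ℝ} (m : ℕ) (hp : p ∈ Al z x A0 m) : ∀ t ≤ m,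
    (∀ q ∈ Al z x A0 t, q < p → (∀ s ∈ Al z x A0 t, ¬ (q < s ∧ s < p)) →
      ∑ s ∈ range t, (lft z (Al z x A0 s) (x s) p / z + x s p + z * rgt z (Al z x A0 s) (x s) p)
        ≤ Wt z x A0 t q) ∧
    ((∀ q ∈ Al z x A0 t, ¬ q < p) →
      ∑ s ∈ range t, (lft z (Al z x A0 s) (x s) p / z + x s p + z * rgt z (Al z x A0 s) (x s) p)
        ≤ t + z * (Wt z x A0 t p - t)) := by
  intro t
  induction t with
  | zero =>
    intro _
    constructor
    · intro q _ _ _; simp
    · intro _; simp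
  | succ t ih =>
    intro ht
    have ihh := ih (by omega)
    have hpt : p ∈ Al z x A0 t := Al_anti z x A0 (by omega) hp
    have hpt1 : p ∈ Al z x A0 (t + 1) := Al_anti z x A0 ht hp
    have hWp := le_Wt z x A0 hpt1
    by_cases hne : (( Al z x A0 t).filter (· < p)).Nonempty
    · -- predecessor exists at time t
      set q0 := ((Al z x A0 t).filter (· < p)).max' hne with hq0
      have hq0mem : q0 ∈ (Al z x A0 t).filter (· < p) := max'_mem _ _
      have hq0A : q0 ∈ Al z x A0 t := (mem_filter.1 hq0mem).1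
      have hq0p : q0 < p := (mem_filter.1 hq0mem).2
      have hmax : ∀ s ∈ Al z x A0 t, s < p → s ≤ q0 := fun s hs hsp =>
        le_max' _ _ (mem_filter.2 ⟨hs, hsp⟩)
      have hno : ∀ s ∈ Al z x A0 t, ¬ (q0 < s ∧ s < p) := fun s hs h =>
        absurd (hmax s hs h.2) (not_le.2 h.1)
      have hw : lft z (Al z x A0 t) (x t) p / z + x t p + z * rgt z (Al z x A0 t) (x t) p
          = wgt z (Al z x A0 t) (x t) q0 := by
        unfold wgt
        rw [lft_eq hq0A hq0p hno, rgt_eq hpt hq0p hno]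
        field_simp
        ring
      have hS := ihh.1 q0 hq0A hq0p hno
      have hS1 : ∑ s ∈ range (t + 1),
          (lft z (Al z x A0 s) (x s) p / z + x s p + z * rgt z (Al z x A0 s) (x s) p)
            ≤ Wt z x A0 (t + 1) q0 := by
        rw [sum_range_succ, hw, Wt_succ]
        linarith
      constructor
      · intro q hq hqp hnoq
        by_cases hqq : q = q0
        · rw [hqq]; exact hS1
        · have hq' : q < q0 := lt_of_le_of_ne (hmax q (Al_succ_subset z x A0 t hq) hqp) hqq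
          have hdead : q0 ∉ Al z x A0 (t + 1) := fun h => hnoq q0 h ⟨hq', hq0p⟩
          have hlt : Wt z x A0 (t + 1) q0 < ((t + 1 : ℕ) : ℝ) := by
            by_contra hcon
            exact hdead ((mem_Al_succ z x A0).2 ⟨hq0A, not_lt.1 hcon⟩)
          have := le_Wt z x A0 hq
          linarith
      · intro hnone
        have hdead : q0 ∉ Al z x A0 (t + 1) := fun h => hnone q0 h hq0p
        have hlt : Wt z x A0 (t + 1) q0 < ((t + 1 : ℕ) : ℝ) := by
          by_contra hcon
          exact hdead ((mem_Al_succ z x A0).2 ⟨hq0A, not_lt.1 hcon⟩)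
        have h3 : 0 ≤ z * (Wt z x A0 (t + 1) p - ((t + 1 : ℕ) : ℝ)) :=
          mul_nonneg hz0.le (by linarith)
        linarith
    · have hnone : ∀ q ∈ Al z x A0 t, ¬ q < p := fun q hq hqp =>
        hne ⟨q, mem_filter.2 ⟨hq, hqp⟩⟩
      constructor
      · intro q hq hqp _
        exact absurd hqp (hnone q (Al_succ_subset z x A0 t hq))
      · intro _
        have hS := ihh.2 hnone
        have hl : lft z (Al z x A0 t) (x t) p = 0 := by
          unfold lft
          rw [filter_eq_empty_iff.2 (fun q hq => hnone q hq)]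
          simp
        have hw : lft z (Al z x A0 t) (x t) p / z + x t p + z * rgt z (Al z x A0 t) (x t) p
            = z * wgt z (Al z x A0 t) (x t) p := by
          unfold wgt
          rw [hl]
          field_simp
          ring
        rw [sum_range_succ, hw, Wt_succ]
        push_cast
        nlinarith [hS]

lemma right_slot {p : ℝ} (m : ℕ) (hp : p ∈ Al z x A0 m) : ∀ t ≤ m,
    (∀ q ∈ Al z x A0 t, p < q → (∀ s ∈ Al z x A0 t, ¬ (p < s ∧ s < q)) →
      ∑ s ∈ range t, (rgt z (Al z x A0 s) (x s) p / z + x s p + z * lft z (Al z x A0 s) (x s) p)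
        ≤ Wt z x A0 t q) ∧
    ((∀ q ∈ Al z x A0 t, ¬ p < q) →
      ∑ s ∈ range t, (rgt z (Al z x A0 s) (x s) p / z + x s p + z * lft z (Al z x A0 s) (x s) p)
        ≤ t + z * (Wt z x A0 t p - t)) := by
  intro t
  induction t with
  | zero =>
    intro _
    constructor
    · intro q _ _ _; simp
    · intro _; simp
  | succ t ih =>
    intro ht
    have ihh := ih (by omega)
    have hpt : p ∈ Al z x A0 t := Al_anti z x A0 (by omega) hp
    have hpt1 : p ∈ Al z x A0 (t + 1) := Al_anti z x A0 ht hp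
    have hWp := le_Wt z x A0 hpt1
    by_cases hne : (( Al z x A0 t).filter (p < ·)).Nonempty
    · set q0 := ((Al z x A0 t).filter (p < ·)).min' hne with hq0
      have hq0mem : q0 ∈ (Al z x A0 t).filter (p < ·) := min'_mem _ _
      have hq0A : q0 ∈ Al z x A0 t := (mem_filter.1 hq0mem).1
      have hq0p : p < q0 := (mem_filter.1 hq0mem).2
      have hmin : ∀ s ∈ Al z x A0 t, p < s → q0 ≤ s := fun s hs hsp =>
        min'_le _ _ (mem_filter.2 ⟨hs, hsp⟩)
      have hno : ∀ s ∈ Al z x A0 t, ¬ (p < s ∧ s < q0) := fun s hs h =>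
        absurd (hmin s hs h.1) (not_le.2 h.2)
      have hw : rgt z (Al z x A0 t) (x t) p / z + x t p + z * lft z (Al z x A0 t) (x t) p
          = wgt z (Al z x A0 t) (x t) q0 := by
        unfold wgt
        rw [lft_eq hpt hq0p hno, rgt_eq hq0A hq0p hno]
        field_simp
        ring
      have hS := ihh.1 q0 hq0A hq0p hno
      have hS1 : ∑ s ∈ range (t + 1),
          (rgt z (Al z x A0 s) (x s) p / z + x s p + z * lft z (Al z x A0 s) (x s) p)
            ≤ Wt z x A0 (t + 1) q0 := by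
        rw [sum_range_succ, hw, Wt_succ]
        linarith
      constructor
      · intro q hq hqp hnoq
        by_cases hqq : q = q0
        · rw [hqq]; exact hS1
        · have hq' : q0 < q :=
            lt_of_le_of_ne (hmin q (Al_succ_subset z x A0 t hq) hqp) (Ne.symm hqq)
          have hdead : q0 ∉ Al z x A0 (t + 1) := fun h => hnoq q0 h ⟨hq0p, hq'⟩
          have hlt : Wt z x A0 (t + 1) q0 < ((t + 1 : ℕ) : ℝ) := by
            by_contra hcon
            exact hdead ((mem_Al_succ z x A0).2 ⟨hq0A, not_lt.1 hcon⟩)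
          have := le_Wt z x A0 hq
          linarith
      · intro hnone
        have hdead : q0 ∉ Al z x A0 (t + 1) := fun h => hnone q0 h hq0p
        have hlt : Wt z x A0 (t + 1) q0 < ((t + 1 : ℕ) : ℝ) := by
          by_contra hcon
          exact hdead ((mem_Al_succ z x A0).2 ⟨hq0A, not_lt.1 hcon⟩)
        have h3 : 0 ≤ z * (Wt z x A0 (t + 1) p - ((t + 1 : ℕ) : ℝ)) :=
          mul_nonneg hz0.le (by linarith)
        linarith
    · have hnone : ∀ q ∈ Al z x A0 t, ¬ p < q := fun q hq hqp =>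
        hne ⟨q, mem_filter.2 ⟨hq, hqp⟩⟩
      constructor
      · intro q hq hqp _
        exact absurd hqp (hnone q (Al_succ_subset z x A0 t hq))
      · intro _
        have hS := ihh.2 hnone
        have hl : rgt z (Al z x A0 t) (x t) p = 0 := by
          unfold rgt
          rw [filter_eq_empty_iff.2 (fun q hq => hnone q hq)]
          simp
        have hw : rgt z (Al z x A0 t) (x t) p / z + x t p + z * lft z (Al z x A0 t) (x t) p
            = z * wgt z (Al z x A0 t) (x t) p := by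
          unfold wgt
          rw [hl]
          field_simp
          ring
        rw [sum_range_succ, hw, Wt_succ]
        push_cast
        nlinarith [hS]

omit hz0 hz1 in
lemma Wt_eq_sum (t : ℕ) (p : ℝ) :
    Wt z x A0 t p = ∑ s ∈ range t, wgt z (Al z x A0 s) (x s) p := by
  induction t with
  | zero => simp
  | succ t ih => rw [Wt_succ, sum_range_succ, ih]

/-- the main inequality -/
lemma main_ineq (m : ℕ) (hne : (Al z x A0 m).Nonempty) :
    ∃ p ∈ Al z x A0 m, (m : ℝ) * (1 - z) ^ 2 * z ≤ (1 - z ^ 2) * ∑ s ∈ range m, x s p := by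
  obtain ⟨p, hp, hmax⟩ := exists_max_image (Al z x A0 m) (Wt z x A0 m) hne
  refine ⟨p, hp, ?_⟩
  have hmW := le_Wt z x A0 hp
  set W := Wt z x A0 m p with hW
  have hL : ∑ s ∈ range m,
      (lft z (Al z x A0 s) (x s) p / z + x s p + z * rgt z (Al z x A0 s) (x s) p) ≤ W := by
    obtain ⟨h1, h2⟩ := left_slot x A0 hz0 hz1 m hp m le_rfl
    by_cases hn : ((Al z x A0 m).filter (· < p)).Nonempty
    · set q0 := ((Al z x A0 m).filter (· < p)).max' hn
      have hq0mem : q0 ∈ (Al z x A0 m).filter (· < p) := max'_mem _ _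
      have hmax' : ∀ s ∈ Al z x A0 m, s < p → s ≤ q0 := fun s hs hsp =>
        le_max' _ _ (mem_filter.2 ⟨hs, hsp⟩)
      refine (h1 q0 (mem_filter.1 hq0mem).1 (mem_filter.1 hq0mem).2 fun s hs h =>
        absurd (hmax' s hs h.2) (not_le.2 h.1)).trans (hmax q0 (mem_filter.1 hq0mem).1)
    · have := h2 fun q hq hqp => hn ⟨q, mem_filter.2 ⟨hq, hqp⟩⟩
      nlinarith
  have hR : ∑ s ∈ range m,
      (rgt z (Al z x A0 s) (x s) p / z + x s p + z * lft z (Al z x A0 s) (x s) p) ≤ W := by
    obtain ⟨h1, h2⟩ := right_slot x A0 hz0 hz1 m hp m le_rfl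
    by_cases hn : ((Al z x A0 m).filter (p < ·)).Nonempty
    · set q0 := ((Al z x A0 m).filter (p < ·)).min' hn
      have hq0mem : q0 ∈ (Al z x A0 m).filter (p < ·) := min'_mem _ _
      have hmin' : ∀ s ∈ Al z x A0 m, p < s → q0 ≤ s := fun s hs hsp =>
        min'_le _ _ (mem_filter.2 ⟨hs, hsp⟩)
      refine (h1 q0 (mem_filter.1 hq0mem).1 (mem_filter.1 hq0mem).2 fun s hs h =>
        absurd (hmin' s hs h.1) (not_le.2 h.2)).trans (hmax q0 (mem_filter.1 hq0mem).1)
    · have := h2 fun q hq hqp => hn ⟨q, mem_filter.2 ⟨hq, hqp⟩⟩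
      nlinarith
  have hsum : (z ^ 2 + 1) * z * W = z ^ 2 * ∑ s ∈ range m,
      (lft z (Al z x A0 s) (x s) p / z + x s p + z * rgt z (Al z x A0 s) (x s) p)
      + z ^ 2 * ∑ s ∈ range m,
      (rgt z (Al z x A0 s) (x s) p / z + x s p + z * lft z (Al z x A0 s) (x s) p)
      + (1 - z ^ 2) * ∑ s ∈ range m, x s p := by
    rw [hW, Wt_eq_sum, mul_sum, mul_sum, mul_sum, mul_sum, ← sum_add_distrib, ← sum_add_distrib]
    refine sum_congr rfl fun s _ => ?_
    unfold wgt
    field_simp
    ring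
  have hz2 : 0 < z ^ 2 := by positivity
  have h4 : W * (1 - z) ^ 2 * z ≤ (1 - z ^ 2) * ∑ s ∈ range m, x s p := by
    nlinarith [mul_le_mul_of_nonneg_left hL hz2.le, mul_le_mul_of_nonneg_left hR hz2.le]
  have h5 : (m : ℝ) * (1 - z) ^ 2 * z ≤ W * (1 - z) ^ 2 * z := by
    have : 0 ≤ (1 - z) ^ 2 * z := by positivity
    nlinarith
  linarith

end process

end FFInterval
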