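import Pool.Agent.Helper13.FF.LowWin

/-!
The top-down strategy of the adversary for First-Fit on interval graphs: geometric part.
An interval is a triple `(left end, right end, time)`.
-/

namespace FFLower

open Finset

/-- A family of intervals inside `(lo, hi)` with times in `(s, r]`, such that intervals with the
same time are disjoint and every interval is met at every later time. -/
structure Fam (lo hi : ℝ) (s r : ℕ) (W : Finset (ℝ × ℝ × ℕ)) : Prop where
  bd : ∀ I ∈ W, lo < I.1 ∧ I.1 ≤ I.2.1 ∧ I.2.1 < hi ∧ s < I.2.2 ∧ I.2.2 ≤ r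
  dis : ∀ I ∈ W, ∀ J ∈ W, I ≠ J → I.2.2 = J.2.2 → I.2.1 < J.1 ∨ J.2.1 < I.1
  srv : ∀ I ∈ W, ∀ σ, I.2.2 < σ → σ ≤ r → ∃ J ∈ W, J.2.2 = σ ∧ J.1 ≤ I.2.1 ∧ I.1 ≤ J.2.1

/-- The number of intervals of `W` covering `x`. -/
noncomputable def load (W : Finset (ℝ × ℝ × ℕ)) (x : ℝ) : ℕ :=
  (W.filter fun I => I.1 ≤ x ∧ x ≤ I.2.1).card

/-- At the times in `(s, r]` some interval of `W` meets the open interval `(c, d)`. -/
def Hits (W : Finset (ℝ × ℝ × ℕ)) (c d : ℝ) (s r : ℕ) : Prop :=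
  ∀ σ, s < σ → σ ≤ r → ∃ J ∈ W, J.2.2 = σ ∧ J.1 < d ∧ c < J.2.1

lemma load_union_le (A B : Finset (ℝ × ℝ × ℕ)) (x : ℝ) :
    load (A ∪ B) x ≤ load A x + load B x := by
  unfold load
  rw [filter_union]
  exact card_union_le _ _

lemma load_eq_zero {W : Finset (ℝ × ℝ × ℕ)} {x : ℝ} (h : ∀ I ∈ W, x < I.1 ∨ I.2.1 < x) :
    load W x = 0 := by
  unfold load
  rw [card_eq_zero, filter_eq_empty_iff]
  intro I hI h2
  rcases h I hI with h3 | h3
  · exact absurd h2.1 (not_le.2 h3)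
  · exact absurd h2.2 (not_le.2 h3)

lemma Fam.load_eq_zero_left {lo hi : ℝ} {s r : ℕ} {W : Finset (ℝ × ℝ × ℕ)}
    (h : Fam lo hi s r W) {x : ℝ} (hx : x ≤ lo) : load W x = 0 :=
  load_eq_zero fun I hI => Or.inl (lt_of_le_of_lt hx (h.bd I hI).1)

lemma Fam.load_eq_zero_right {lo hi : ℝ} {s r : ℕ} {W : Finset (ℝ × ℝ × ℕ)}
    (h : Fam lo hi s r W) {x : ℝ} (hx : hi ≤ x) : load W x = 0 :=
  load_eq_zero fun I hI => Or.inr (lt_of_lt_of_le (h.bd I hI).2.2.1 hx)

lemma Fam.union {lo m hi : ℝ} {s s' s'' r : ℕ} {A B : Finset (ℝ × ℝ × ℕ)}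
    (hA : Fam lo m s r A) (hB : Fam m hi s' r B) (h1 : s'' ≤ s) (h2 : s'' ≤ s')
    (hlo : lo ≤ m) (hhi : m ≤ hi) : Fam lo hi s'' r (A ∪ B) := by
  refine ⟨?_, ?_, ?_⟩
  · intro I hI
    rcases mem_union.1 hI with h | h
    · obtain ⟨a, b, c, d, e⟩ := hA.bd I h
      exact ⟨a, b, lt_of_lt_of_le c hhi, lt_of_le_of_lt h1 d, e⟩
    · obtain ⟨a, b, c, d, e⟩ := hB.bd I h
      exact ⟨lt_of_le_of_lt hlo a, b, c, lt_of_le_of_lt h2 d, e⟩
  · intro I hI J hJ hne ht
    rcases mem_union.1 hI with h | h <;> rcases mem_union.1 hJ with h' | h'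
    · exact hA.dis I h J h' hne ht
    · exact Or.inl ((hA.bd I h).2.2.1.trans (hB.bd J h').1)
    · exact Or.inr ((hA.bd J h').2.2.1.trans (hB.bd I h).1)
    · exact hB.dis I h J h' hne ht
  · intro I hI σ h3 h4
    rcases mem_union.1 hI with h | h
    · obtain ⟨J, hJ, h5⟩ := hA.srv I h σ h3 h4
      exact ⟨J, mem_union_left _ hJ, h5⟩
    · obtain ⟨J, hJ, h5⟩ := hB.srv I h σ h3 h4
      exact ⟨J, mem_union_right _ hJ, h5⟩

lemma Fam.mono {lo hi lo' hi' : ℝ} {s s' r : ℕ} {A : Finset (ℝ × ℝ × ℕ)}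
    (hA : Fam lo hi s r A) (h1 : lo' ≤ lo) (h2 : hi ≤ hi') (h3 : s' ≤ s) :
    Fam lo' hi' s' r A := by
  refine ⟨?_, hA.dis, hA.srv⟩
  intro I h
  obtain ⟨a, b, c, d, e⟩ := hA.bd I h
  exact ⟨lt_of_le_of_lt h1 a, b, lt_of_lt_of_le c h2, lt_of_le_of_lt h3 d, e⟩

lemma Hits.union_left {A B : Finset (ℝ × ℝ × ℕ)} {c d : ℝ} {s r : ℕ} (h : Hits A c d s r) :
    Hits (A ∪ B) c d s r := fun σ h1 h2 => by
  obtain ⟨J, hJ, h3⟩ := h σ h1 h2
  exact ⟨J, mem_union_left _ hJ, h3⟩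

lemma Hits.union_right {A B : Finset (ℝ × ℝ × ℕ)} {c d : ℝ} {s r : ℕ} (h : Hits B c d s r) :
    Hits (A ∪ B) c d s r := fun σ h1 h2 => by
  obtain ⟨J, hJ, h3⟩ := h σ h1 h2
  exact ⟨J, mem_union_right _ hJ, h3⟩

lemma Hits.trans {A : Finset (ℝ × ℝ × ℕ)} {c d : ℝ} {s m r : ℕ} (h : Hits A c d s m)
    (h' : Hits A c d m r) : Hits A c d s r := fun σ h1 h2 => by
  rcases le_or_gt σ m with h3 | h3
  · exact h σ h1 h3
  · exact h' σ h3 h2

lemma Hits.mono {A : Finset (ℝ × ℝ × ℕ)} {c d c' d' : ℝ} {s r : ℕ} (h : Hits A c d s r)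
    (hc : c' ≤ c) (hd : d ≤ d') : Hits A c' d' s r := fun σ h1 h2 => by
  obtain ⟨J, hJ, h3, h4, h5⟩ := h σ h1 h2
  exact ⟨J, hJ, h3, lt_of_lt_of_le h4 hd, lt_of_le_of_lt hc h5⟩

/-! ### Images under maps of the line -/

/-- Reflection. -/
noncomputable def refl (W : Finset (ℝ × ℝ × ℕ)) : Finset (ℝ × ℝ × ℕ) :=
  W.image fun I => (-I.2.1, -I.1, I.2.2)

lemma mem_refl {W : Finset (ℝ × ℝ × ℕ)} {I : ℝ × ℝ × ℕ} :
    I ∈ refl W ↔ (-I.2.1, -I.1, I.2.2) ∈ W := by
  unfold refl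
  rw [mem_image]
  constructor
  · rintro ⟨J, hJ, rfl⟩
    simpa using hJ
  · intro h
    exact ⟨_, h, by simp⟩

lemma Fam.refl {lo hi : ℝ} {s r : ℕ} {A : Finset (ℝ × ℝ × ℕ)} (hA : Fam lo hi s r A) :
    Fam (-hi) (-lo) s r (refl A) := by
  refine ⟨?_, ?_, ?_⟩
  · intro I hI
    obtain ⟨a, b, c, d, e⟩ := hA.bd _ (mem_refl.1 hI)
    simp only at a b c d e
    exact ⟨by linarith, by linarith, by linarith, d, e⟩
  · intro I hI J hJ hne ht
    have := hA.dis _ (mem_refl.1 hI) _ (mem_refl.1 hJ) (by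
      intro h
      apply hne
      simp only [Prod.mk.injEq, neg_inj] at h
      obtain ⟨h1, h2, h3⟩ := h
      exact Prod.ext h2 (Prod.ext h1 h3)) ht
    simp only at this
    rcases this with h | h
    · right; linarith
    · left; linarith
  · intro I hI σ h1 h2
    obtain ⟨J, hJ, h3, h4, h5⟩ := hA.srv _ (mem_refl.1 hI) σ h1 h2
    refine ⟨(-J.2.1, -J.1, J.2.2), mem_refl.2 (by simpa using hJ), h3, ?_, ?_⟩
    · simp only at h5 ⊢; linarith
    · simp only at h4 ⊢; linarith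

lemma Hits.refl {A : Finset (ℝ × ℝ × ℕ)} {c d : ℝ} {s r : ℕ} (h : Hits A c d s r) :
    Hits (refl A) (-d) (-c) s r := fun σ h1 h2 => by
  obtain ⟨J, hJ, h3, h4, h5⟩ := h σ h1 h2
  refine ⟨(-J.2.1, -J.1, J.2.2), mem_refl.2 (by simpa using hJ), h3, ?_, ?_⟩
  · simp only; linarith
  · simp only; linarith

lemma load_refl (W : Finset (ℝ × ℝ × ℕ)) (x : ℝ) : load (refl W) x = load W (-x) := by
  unfold load
  refine card_bij (fun I _ => (-I.2.1, -I.1, I.2.2)) ?_ ?_ ?_
  · intro I hI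
    rw [mem_filter] at hI ⊢
    refine ⟨mem_refl.1 hI.1, ?_, ?_⟩
    · simp only; linarith [hI.2.2]
    · simp only; linarith [hI.2.1]
  · intro I _ J _ h
    simp only [Prod.mk.injEq, neg_inj] at h
    obtain ⟨h1, h2, h3⟩ := h
    exact Prod.ext h2 (Prod.ext h1 h3)
  · intro J hJ
    rw [mem_filter] at hJ
    refine ⟨(-J.2.1, -J.1, J.2.2), ?_, by simp⟩
    rw [mem_filter, mem_refl]
    refine ⟨by simpa using hJ.1, ?_, ?_⟩
    · simp only; linarith [hJ.2.2]
    · simp only; linarith [hJ.2.1]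

/-- A scaled and delayed copy. -/
noncomputable def copy (c k : ℝ) (s : ℕ) (W : Finset (ℝ × ℝ × ℕ)) : Finset (ℝ × ℝ × ℕ) :=
  W.image fun I => (c + k * I.1, c + k * I.2.1, s + I.2.2)

lemma Fam.copy {h : ℕ} {A : Finset (ℝ × ℝ × ℕ)} (hA : Fam 0 1 0 h A) {c k : ℝ} (hk : 0 < k)
    (s : ℕ) : Fam c (c + k) s (s + h) (copy c k s A) := by
  refine ⟨?_, ?_, ?_⟩
  · intro I hI
    obtain ⟨J, hJ, rfl⟩ := mem_image.1 hI
    obtain ⟨a, b, d, e, f⟩ := hA.bd _ hJ
    refine ⟨?_, ?_, ?_, ?_, ?_⟩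
    · simp only; have := mul_pos hk a; linarith
    · simp only; have := mul_le_mul_of_nonneg_left b hk.le; linarith
    · simp only; have := mul_lt_mul_of_pos_left d hk; linarith
    · simp only; omega
    · simp only; omega
  · intro I hI J hJ hne ht
    obtain ⟨I', hI', rfl⟩ := mem_image.1 hI
    obtain ⟨J', hJ', rfl⟩ := mem_image.1 hJ
    have hne' : I' ≠ J' := by rintro rfl; exact hne rfl
    simp only [Nat.add_left_cancel_iff] at ht
    rcases hA.dis _ hI' _ hJ' hne' ht with h | h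
    · left; simp only; have := mul_lt_mul_of_pos_left h hk; linarith
    · right; simp only; have := mul_lt_mul_of_pos_left h hk; linarith
  · intro I hI σ h1 h2
    obtain ⟨I', hI', rfl⟩ := mem_image.1 hI
    simp only at h1
    obtain ⟨J, hJ, h3, h4, h5⟩ := hA.srv _ hI' (σ - s) (by omega) (by omega)
    refine ⟨_, mem_image_of_mem _ hJ, ?_, ?_, ?_⟩
    · simp only; omega
    · simp only; have := mul_le_mul_of_nonneg_left h4 hk.le; linarith
    · simp only; have := mul_le_mul_of_nonneg_left h5 hk.le; linarith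

lemma load_copy {A : Finset (ℝ × ℝ × ℕ)} {c k : ℝ} (hk : 0 < k) (s : ℕ) (x : ℝ) :
    load (copy c k s A) x = load A ((x - c) / k) := by
  unfold load copy
  rw [filter_image, card_image_of_injOn]
  · congr 1
    ext I
    simp only [mem_filter]
    refine and_congr_right fun _ => ?_
    rw [le_div_iff₀ hk, div_le_iff₀ hk]
    constructor
    · rintro ⟨h1, h2⟩; constructor <;> linarith
    · rintro ⟨h1, h2⟩; constructor <;> linarith
  · intro I _ J _ h
    simp only [Prod.mk.injEq, add_right_inj] at h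
    obtain ⟨h1, h2, h3⟩ := h
    exact Prod.ext (mul_left_cancel₀ hk.ne' h1) (Prod.ext (mul_left_cancel₀ hk.ne' h2) h3)

/-- `n` copies of the interval `[c, d]` at the times `s + 1, …, s + n`. -/
noncomputable def stack (c d : ℝ) (s n : ℕ) : Finset (ℝ × ℝ × ℕ) :=
  (range n).image fun i => (c, d, s + 1 + i)

lemma mem_stack {c d : ℝ} {s n : ℕ} {I : ℝ × ℝ × ℕ} :
    I ∈ stack c d s n ↔ I.1 = c ∧ I.2.1 = d ∧ s < I.2.2 ∧ I.2.2 ≤ s + n := by
  unfold stack
  rw [mem_image]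
  constructor
  · rintro ⟨i, hi, rfl⟩
    rw [mem_range] at hi
    refine ⟨rfl, rfl, ?_, ?_⟩
    · simp only; omega
    · simp only; omega
  · rintro ⟨h1, h2, h3, h4⟩
    refine ⟨I.2.2 - s - 1, mem_range.2 (by omega), ?_⟩
    refine Prod.ext h1.symm (Prod.ext h2.symm ?_)
    simp only; omega

lemma load_stack (c d : ℝ) (s n : ℕ) (x : ℝ) :
    load (stack c d s n) x ≤ if c ≤ x ∧ x ≤ d then n else 0 := by
  unfold load
  split_ifs with h
  · refine (card_filter_le _ _).trans ?_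
    unfold stack
    exact card_image_le.trans (by simp)
  · rw [Nat.le_zero, card_eq_zero, filter_eq_empty_iff]
    intro I hI h2
    obtain ⟨h3, h4, _⟩ := mem_stack.1 hI
    rw [h3, h4] at h2
    exact h h2


/-! ### Walls and units -/

/-- There is a wall of height `h` inside `(0, 1)` with all loads at most `h / R + C`. -/
def HasWall (R : ℝ) (C h : ℕ) : Prop :=
  ∃ W : Finset (ℝ × ℝ × ℕ), Fam 0 1 0 h W ∧ Hits W 0 1 0 h ∧
    ∀ x, (load W x : ℝ) ≤ h / R + C

lemma HasWall.restart {R : ℝ} {C h : ℕ} (H : HasWall R C h) {c d : ℝ} (hcd : c < d) (s : ℕ) :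
    ∃ W : Finset (ℝ × ℝ × ℕ), Fam c d s (s + h) W ∧ Hits W c d s (s + h) ∧
      ∀ x, (load W x : ℝ) ≤ h / R + C := by
  obtain ⟨A, h1, h2, h3⟩ := H
  have hk : 0 < d - c := by linarith
  refine ⟨copy c (d - c) s A, ?_, ?_, ?_⟩
  · have := h1.copy (c := c) hk s
    rwa [show c + (d - c) = d by ring] at this
  · intro σ h4 h5
    obtain ⟨J, hJ, h6, h7, h8⟩ := h2 (σ - s) (by omega) (by omega)
    refine ⟨_, mem_image_of_mem _ hJ, ?_, ?_, ?_⟩
    · simp only; omega
    · simp only; have := mul_lt_mul_of_pos_left h7 hk; linarith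
    · simp only; have := mul_pos hk h8; linarith
  · intro x
    rw [load_copy hk]
    exact h3 _

/-- The geometric meaning of `Win`: with remaining times `(t, r]` and bound `K` for the loads. -/
def UnitOK (K : ℝ) (r t p u q : ℕ) : Prop :=
  ∀ (x0 x1 x2 x3 x4 x5 : ℝ) (ℓ : ℝ → ℕ), x0 < x1 → x1 ≤ x2 → x2 < x3 → x3 ≤ x4 → x4 < x5 →
    (∀ x, ℓ x ≤ t) → (∀ x, x0 < x → x < x1 → ℓ x ≤ p) → (∀ x, x2 < x → x < x3 → ℓ x ≤ u) →
    (∀ x, x4 < x → x < x5 → ℓ x ≤ q) →
    ∃ W : Finset (ℝ × ℝ × ℕ), Fam x0 x5 t r W ∧ Hits W x2 x3 t r ∧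
      ∀ x, ((ℓ x : ℝ) + load W x) ≤ K

lemma UnitOK.flip {K : ℝ} {r t p u q : ℕ} (h : UnitOK K r t q u p) : UnitOK K r t p u q := by
  intro x0 x1 x2 x3 x4 x5 ℓ h0 h1 h2 h3 h4 hl hp hu hq
  obtain ⟨W, h5, h6, h7⟩ := h (-x5) (-x4) (-x3) (-x2) (-x1) (-x0) (fun x => ℓ (-x))
    (by linarith) (by linarith) (by linarith) (by linarith) (by linarith)
    (fun x => hl _) (fun x a b => hq _ (by linarith) (by linarith))
    (fun x a b => hu _ (by linarith) (by linarith))
    (fun x a b => hp _ (by linarith) (by linarith))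
  refine ⟨refl W, ?_, ?_, ?_⟩
  · simpa using h5.refl
  · simpa using h6.refl
  · intro x
    rw [load_refl]
    simpa using h7 (-x)

lemma left_step {K : ℝ} {r t p u a : ℕ} (hU : UnitOK K r (t + a) p (p + a) u)
    (hr : t + a ≤ r) {x0 x1 x2 x3 : ℝ} (h0 : x0 < x1) (h1 : x1 ≤ x2) (h2 : x2 < x3)
    (ℓ : ℝ → ℕ) (hl : ∀ x, ℓ x ≤ t) (hp : ∀ x, x0 < x → x < x1 → ℓ x ≤ p)
    (hu : ∀ x, x2 < x → x < x3 → ℓ x ≤ u) :
    ∃ W : Finset (ℝ × ℝ × ℕ), Fam x0 x3 t r W ∧ Hits W x2 x3 t (t + a) ∧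
      ∀ x, ((ℓ x : ℝ) + load W x) ≤ K := by
  classical
  obtain ⟨m1, hm1, hm1'⟩ : ∃ m, x0 < m ∧ m < x1 := exists_between h0
  obtain ⟨m2, hm2, hm2'⟩ : ∃ m, x2 < m ∧ m < x3 := exists_between h2
  obtain ⟨W, h5, h6, h7⟩ := hU x0 m1 m1 x1 m2 x3
    (fun x => ℓ x + if m1 ≤ x ∧ x ≤ m2 then a else 0) hm1 le_rfl hm1' (by linarith) hm2'
    (fun x => by
      have := hl x
      split_ifs <;> omega)
    (fun x a b => by
      have := hp x a (by linarith)
      rw [if_neg (by rintro ⟨h3, _⟩; linarith)]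
      simpa using this)
    (fun x a b => by
      have := hp x (by linarith) b
      split_ifs <;> omega)
    (fun x a b => by
      have := hu x (by linarith) b
      rw [if_neg (by rintro ⟨_, h3⟩; linarith)]
      simpa using this)
  refine ⟨stack m1 m2 t a ∪ W, ⟨?_, ?_, ?_⟩, ?_, ?_⟩
  · intro I hI
    rcases mem_union.1 hI with h | h
    · obtain ⟨e1, e2, e3, e4⟩ := mem_stack.1 h
      rw [e1, e2]
      exact ⟨hm1, by linarith, hm2', e3, e4.trans hr⟩
    · obtain ⟨e1, e2, e3, e4, e5⟩ := h5.bd I h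
      exact ⟨e1, e2, e3, by omega, e5⟩
  · intro I hI J hJ hne ht
    rcases mem_union.1 hI with h | h <;> rcases mem_union.1 hJ with h' | h'
    · obtain ⟨e1, e2, e3, e4⟩ := mem_stack.1 h
      obtain ⟨f1, f2, f3, f4⟩ := mem_stack.1 h'
      exact absurd (Prod.ext (e1.trans f1.symm) (Prod.ext (e2.trans f2.symm) ht)) hne
    · obtain ⟨e1, e2, e3, e4⟩ := mem_stack.1 h
      obtain ⟨f1, f2, f3, f4, f5⟩ := h5.bd J h'
      omega
    · obtain ⟨e1, e2, e3, e4⟩ := mem_stack.1 h'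
      obtain ⟨f1, f2, f3, f4, f5⟩ := h5.bd I h
      omega
    · exact h5.dis I h J h' hne ht
  · intro I hI σ h3 h4
    rcases mem_union.1 hI with h | h
    · obtain ⟨e1, e2, e3, e4⟩ := mem_stack.1 h
      rcases le_or_gt σ (t + a) with h8 | h8
      · refine ⟨(m1, m2, σ), mem_union_left _ (mem_stack.2 ⟨rfl, rfl, ?_, h8⟩), rfl, ?_, ?_⟩
        · simp only; omega
        · simp only; rw [e2]; linarith
        · simp only; rw [e1]; linarith
      · obtain ⟨J, hJ, e5, e6, e7⟩ := h6 σ h8 h4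
        refine ⟨J, mem_union_right _ hJ, e5, ?_, ?_⟩
        · rw [e2]; linarith
        · rw [e1]; linarith
    · obtain ⟨J, hJ, h8⟩ := h5.srv I h σ h3 h4
      exact ⟨J, mem_union_right _ hJ, h8⟩
  · intro σ h3 h4
    exact ⟨(m1, m2, σ), mem_union_left _ (mem_stack.2 ⟨rfl, rfl, h3, h4⟩), rfl,
      by simp only; linarith, by simp only; linarith⟩
  · intro x
    have e1 := load_union_le (stack m1 m2 t a) W x
    have e2 := load_stack m1 m2 t a x
    have e3 := h7 x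
    have e4 : ((load (stack m1 m2 t a ∪ W) x : ℕ) : ℝ)
        ≤ ((if m1 ≤ x ∧ x ≤ m2 then a else 0 : ℕ) : ℝ) + load W x := by
      have : load (stack m1 m2 t a ∪ W) x ≤ (if m1 ≤ x ∧ x ≤ m2 then a else 0) + load W x := by
        omega
      exact_mod_cast this
    push_cast at e3 e4
    linarith

lemma right_step {K : ℝ} {r t q u b : ℕ} (hU : UnitOK K r (t + b) u (q + b) q)
    (hr : t + b ≤ r) {x2 x3 x4 x5 : ℝ} (h2 : x2 < x3) (h3 : x3 ≤ x4) (h4 : x4 < x5)
    (ℓ : ℝ → ℕ) (hl : ∀ x, ℓ x ≤ t) (hu : ∀ x, x2 < x → x < x3 → ℓ x ≤ u)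
    (hq : ∀ x, x4 < x → x < x5 → ℓ x ≤ q) :
    ∃ W : Finset (ℝ × ℝ × ℕ), Fam x2 x5 t r W ∧ Hits W x2 x3 t (t + b) ∧
      ∀ x, ((ℓ x : ℝ) + load W x) ≤ K := by
  obtain ⟨W, h5, h6, h7⟩ := left_step hU.flip hr (x0 := -x5) (x1 := -x4) (x2 := -x3)
    (x3 := -x2) (by linarith) (by linarith) (by linarith) (fun x => ℓ (-x))
    (fun x => hl _) (fun x a b => hq _ (by linarith) (by linarith))
    (fun x a b => hu _ (by linarith) (by linarith))
  refine ⟨refl W, ?_, ?_, ?_⟩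
  · simpa using h5.refl
  · simpa using h6.refl
  · intro x
    rw [load_refl]
    simpa using h7 (-x)

lemma Win.le {R : ℝ} {C t p u q : ℕ} (h : Win R C t p u q) : t ≤ C := by
  induction h with
  | done _ h2 => exact h2
  | flip _ ih => exact ih
  | l a _ _ h3 _ => omega
  | lr a b _ _ _ h4 _ _ => omega

lemma unitOK_of_win {R : ℝ} (hR : 0 < R) {C r : ℕ} (hCr : C < r)
    (hw : ∀ h < r, HasWall R C h) {t p u q : ℕ} (h : Win R C t p u q) (ht : 0 < t) :
    UnitOK (r / R + C) r t p u q := by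
  have hr0 : 0 ≤ (r : ℝ) / R := by positivity
  -- the restart at time `s` in a cell of load `u ≤ s / R`
  have hrestart : ∀ (s u : ℕ), 0 < s → s ≤ C → R * u ≤ s → ∀ c d : ℝ, c < d →
      ∃ W : Finset (ℝ × ℝ × ℕ), Fam c d s r W ∧ Hits W c d s r ∧
        ∀ x, ((u : ℝ) + load W x) ≤ r / R + C := by
    intro s u hs0 hsC hu c d hcd
    obtain ⟨W, h1, h2, h3⟩ := (hw (r - s) (by omega)).restart hcd s
    have e : s + (r - s) = r := by omega
    rw [e] at h1 h2
    refine ⟨W, h1, h2, fun x => ?_⟩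
    have h4 := h3 x
    have h5 : ((r - s : ℕ) : ℝ) = r - s := by
      rw [Nat.cast_sub (by omega)]
    rw [h5] at h4
    have h6 : (u : ℝ) ≤ s / R := by
      rw [le_div_iff₀ hR]; linarith
    have h7 : ((r : ℝ) - s) / R = r / R - s / R := by ring
    rw [h7] at h4
    linarith
  induction h with
  | @done t p u q h1 h2 =>
    intro x0 x1 x2 x3 x4 x5 ℓ h3 h4 h5 h6 h7 hl hp hu hq
    obtain ⟨W, e1, e2, e3⟩ := hrestart t u ht h2 h1 x2 x3 h5
    refine ⟨W, e1.mono (by linarith) (by linarith) le_rfl, e2, fun x => ?_⟩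
    have hlx : (ℓ x : ℝ) ≤ C := by exact_mod_cast (hl x).trans h2
    rcases le_or_gt x x2 with h8 | h8
    · rw [e1.load_eq_zero_left h8]; push_cast; linarith
    rcases le_or_gt x3 x with h9 | h9
    · rw [e1.load_eq_zero_right h9]; push_cast; linarith
    have h10 : (ℓ x : ℝ) ≤ u := by exact_mod_cast hu x h8 h9
    linarith [e3 x]
  | flip _ ih => exact (ih ht).flip
  | @l t p u q a hWin h2 h3 ih =>
    intro x0 x1 x2 x3 x4 x5 ℓ g3 g4 g5 g6 g7 hl hp hu hq
    obtain ⟨m, hm, hm'⟩ : ∃ m, x2 < m ∧ m < x3 := exists_between g5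
    obtain ⟨W1, e1, e2, e3⟩ := left_step (ih (by omega)) (by omega) g3 g4 hm ℓ hl hp
      (fun x a b => hu x a (by linarith))
    obtain ⟨W0, f1, f2, f3⟩ := hrestart (t + a) u (by omega) h3 h2 m x3 hm'
    refine ⟨W1 ∪ W0, (e1.union f1 (s'' := t) le_rfl (by omega) (by linarith) hm'.le).mono le_rfl
      (by linarith) le_rfl, ?_, fun x => ?_⟩
    · exact ((e2.mono le_rfl hm'.le).union_left).trans ((f2.mono hm.le le_rfl).union_right)
    · have hlx : (ℓ x : ℝ) ≤ C := by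
        have := hl x
        have : ℓ x ≤ C := by omega
        exact_mod_cast this
      have hun : (load (W1 ∪ W0) x : ℝ) ≤ load W1 x + load W0 x := by
        exact_mod_cast load_union_le W1 W0 x
      rcases le_or_gt x m with h8 | h8
      · rw [f1.load_eq_zero_left h8] at hun
        push_cast at hun
        linarith [e3 x]
      rw [e1.load_eq_zero_right h8.le] at hun
      push_cast at hun
      rcases le_or_gt x3 x with h9 | h9
      · rw [f1.load_eq_zero_right h9] at hun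
        push_cast at hun
        linarith
      have h10 : (ℓ x : ℝ) ≤ u := by exact_mod_cast hu x (by linarith) h9
      linarith [f3 x]
  | @lr t p u q a b hW1 hW2 h3 h4 ih1 ih2 =>
    intro x0 x1 x2 x3 x4 x5 ℓ g3 g4 g5 g6 g7 hl hp hu hq
    obtain ⟨m, hm, hm'⟩ : ∃ m, x2 < m ∧ m < x3 := exists_between g5
    obtain ⟨n, hn, hn'⟩ : ∃ n, m < n ∧ n < x3 := exists_between hm'
    obtain ⟨W1, e1, e2, e3⟩ := left_step (ih1 (by omega)) (by omega) g3 g4 hm ℓ hl hp
      (fun x a b => hu x a (by linarith))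
    obtain ⟨W2, k1, k2, k3⟩ := right_step (ih2 (by omega)) (by omega) hn' g6 g7 ℓ
      (fun x => (hl x).trans (by omega)) (fun x a b => hu x (by linarith) b) hq
    obtain ⟨W0, f1, f2, f3⟩ := hrestart (t + a + b) u (by omega) h4 h3 m n hn
    have F1 := e1.union f1 (s'' := t) le_rfl (by omega) (by linarith) hn.le
    have F2 := F1.union k1 (s'' := t) le_rfl (by omega) (by linarith) (by linarith)
    refine ⟨W1 ∪ W0 ∪ W2, F2, ?_, fun x => ?_⟩
    · refine Hits.trans (m := t + a) ?_ (Hits.trans (m := t + a + b) ?_ ?_)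
      · exact ((e2.mono le_rfl hm'.le).union_left).union_left
      · exact (k2.mono (by linarith) le_rfl).union_right
      · exact ((f2.mono hm.le hn'.le).union_right).union_left
    · have hlx : (ℓ x : ℝ) ≤ C := by
        have := hl x
        have : ℓ x ≤ C := by omega
        exact_mod_cast this
      have hun : (load (W1 ∪ W0 ∪ W2) x : ℝ) ≤ load W1 x + load W0 x + load W2 x := by
        have u1 := load_union_le (W1 ∪ W0) W2 x
        have u2 := load_union_le W1 W0 x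
        have : load (W1 ∪ W0 ∪ W2) x ≤ load W1 x + load W0 x + load W2 x := by omega
        exact_mod_cast this
      rcases le_or_gt x m with h8 | h8
      · rw [f1.load_eq_zero_left h8, k1.load_eq_zero_left (by linarith)] at hun
        push_cast at hun
        linarith [e3 x]
      rw [e1.load_eq_zero_right h8.le] at hun
      rcases le_or_gt x n with h9 | h9
      · rw [k1.load_eq_zero_left h9] at hun
        push_cast at hun
        have h10 : (ℓ x : ℝ) ≤ u := by exact_mod_cast hu x (by linarith) (by linarith)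
        linarith [f3 x]
      · rw [f1.load_eq_zero_right h9.le] at hun
        push_cast at hun
        linarith [k3 x]

theorem hasWall {R : ℝ} (hR : 0 < R) {C u : ℕ} (hu : 1 ≤ u) (h : Win R C u 0 u 0) :
    ∀ n, HasWall R C n := by
  intro n
  induction n using Nat.strong_induction_on with
  | _ n ih =>
    have hn0 : 0 ≤ (n : ℝ) / R := by positivity
    rcases le_or_gt n C with hn | hn
    · refine ⟨stack (1 / 4) (3 / 4) 0 n, ⟨?_, ?_, ?_⟩, ?_, ?_⟩
      · intro I hI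
        obtain ⟨e1, e2, e3, e4⟩ := mem_stack.1 hI
        rw [e1, e2]
        exact ⟨by norm_num, by norm_num, by norm_num, e3, by omega⟩
      · intro I hI J hJ hne ht
        obtain ⟨e1, e2, e3, e4⟩ := mem_stack.1 hI
        obtain ⟨f1, f2, f3, f4⟩ := mem_stack.1 hJ
        exact absurd (Prod.ext (e1.trans f1.symm) (Prod.ext (e2.trans f2.symm) ht)) hne
      · intro I hI σ h3 h4
        obtain ⟨e1, e2, e3, e4⟩ := mem_stack.1 hI
        refine ⟨(1 / 4, 3 / 4, σ), mem_stack.2 ⟨rfl, rfl, ?_, ?_⟩, rfl, ?_, ?_⟩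
        · simp only; omega
        · simp only; omega
        · rw [e2]; norm_num
        · rw [e1]; norm_num
      · intro σ h3 h4
        exact ⟨(1 / 4, 3 / 4, σ), mem_stack.2 ⟨rfl, rfl, h3, by simpa using h4⟩, rfl, by norm_num,
          by norm_num⟩
      · intro x
        have e1 := load_stack (1 / 4) (3 / 4) 0 n x
        have e2 : load (stack (1 / 4) (3 / 4) 0 n) x ≤ C := by
          refine e1.trans ?_
          split_ifs <;> omega
        have e3 : (load (stack (1 / 4) (3 / 4) 0 n) x : ℝ) ≤ C := by exact_mod_cast e2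
        linarith
    · have hU := unitOK_of_win hR hn ih h hu
      have huC := h.le
      have hU' : UnitOK (n / R + C) n (0 + u) 0 (0 + u) 0 := by simpa using hU
      obtain ⟨W, h1, h2, h3⟩ := left_step hU' (by omega) (x0 := 0) (x1 := 1 / 3) (x2 := 1 / 3)
        (x3 := 1) (by norm_num) le_rfl (by norm_num) (fun _ => 0) (fun _ => le_rfl)
        (fun _ _ _ => le_rfl) (fun _ _ _ => le_rfl)
      refine ⟨W, h1, ?_, fun x => by simpa using h3 x⟩
      intro σ hσ hσn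
      rcases le_or_gt σ (0 + u) with h4 | h4
      · exact h2.mono (by norm_num) le_rfl σ hσ h4
      · obtain ⟨J, hJ, e1, e2, e3⟩ := h2 (0 + u) (by omega) le_rfl
        obtain ⟨J', hJ', f1, f2, f3⟩ := h1.srv J hJ σ (by omega) hσn
        obtain ⟨g1, g2, g3, g4, g5⟩ := h1.bd J' hJ'
        exact ⟨J', hJ', f1, by linarith, by linarith⟩

/-- For every ratio `5 - e < 5` there are walls of every height `n` with loads at most
`n / (5 - e) + C`. -/
theorem exists_walls {e : ℝ} (he : 0 < e) (he1 : e ≤ 1) :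
    ∃ C : ℕ, ∀ n, HasWall (5 - e) C n := by
  obtain ⟨u, C, hu, h⟩ := exists_win he he1
  exact ⟨C, hasWall (by linarith) hu h⟩

end FFLower
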