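import Mathlib

/-!
The top-down strategy of the adversary for First-Fit on interval graphs: numerical part.

`Win R C t p u q`: at time `t` an interval whose light cell has load `u`, with load `p` (`q`)
immediately to the left (right), can be served at all later times.
-/

namespace FFLower

inductive Win (R : ℝ) (C : ℕ) : ℕ → ℕ → ℕ → ℕ → Prop
  | done {t p u q : ℕ} : R * u ≤ t → t ≤ C → Win R C t p u q
  | flip {t p u q : ℕ} : Win R C t q u p → Win R C t p u q
  | l {t p u q : ℕ} (a : ℕ) : Win R C (t + a) p (p + a) u → R * u ≤ ((t + a : ℕ) : ℝ) →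
      t + a ≤ C → Win R C t p u q
  | lr {t p u q : ℕ} (a b : ℕ) : Win R C (t + a) p (p + a) u →
      Win R C (t + a + b) u (q + b) q → R * u ≤ ((t + a + b : ℕ) : ℝ) →
      t + a + b ≤ C → Win R C t p u q

lemma Win.monoC {R : ℝ} {C C' t p u q : ℕ} (h : Win R C t p u q) (hC : C ≤ C') :
    Win R C' t p u q := by
  induction h with
  | done h1 h2 => exact Win.done h1 (h2.trans hC)
  | flip _ ih => exact Win.flip ih
  | l a _ h2 h3 ih => exact Win.l a ih h2 (h3.trans hC)
  | lr a b _ _ h3 h4 ih1 ih2 => exact Win.lr a b ih1 ih2 h3 (h4.trans hC)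

lemma Win.monoT {R : ℝ} {C t p u q : ℕ} (h : Win R C t p u q) (k : ℕ) :
    Win R (C + k) (t + k) p u q := by
  induction h with
  | done h1 h2 =>
    refine Win.done ?_ (by omega)
    push_cast
    have : (0 : ℝ) ≤ k := Nat.cast_nonneg k
    linarith
  | flip _ ih => exact Win.flip ih
  | @l t p u q a _ h2 h3 ih =>
    have e1 : t + k + a = t + a + k := by omega
    refine Win.l a (by rw [e1]; exact ih) ?_ (by omega)
    push_cast at h2 ⊢
    have : (0 : ℝ) ≤ k := Nat.cast_nonneg k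
    linarith
  | @lr t p u q a b _ _ h3 h4 ih1 ih2 =>
    have e1 : t + k + a = t + a + k := by omega
    have e2 : t + k + a + b = t + a + b + k := by omega
    refine Win.lr a b (by rw [e1]; exact ih1) (by rw [e2]; exact ih2) ?_ (by omega)
    push_cast at h3 ⊢
    have : (0 : ℝ) ≤ k := Nat.cast_nonneg k
    linarith

/-- All states with slack at least `s` are won. -/
def PP (R : ℝ) (u0 : ℕ) (s : ℝ) : Prop :=
  ∀ t p u q : ℕ, u0 ≤ u → p ≤ u → p ≤ q →
    2 * (u : ℝ) + 2 * p + min (q : ℝ) u + s * (u - p) ≤ t → ∃ C, Win R C t p u q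

lemma win_of_le {R : ℝ} {t t0 p u q : ℕ} (h : ∃ C, Win R C t0 p u q) (ht : t0 ≤ t) :
    ∃ C, Win R C t p u q := by
  obtain ⟨C, hC⟩ := h
  obtain ⟨k, rfl⟩ := Nat.exists_eq_add_of_le ht
  exact ⟨_, hC.monoT k⟩

lemma PP_one {R : ℝ} (hR : R ≤ 5) (u0 : ℕ) : PP R u0 1 := by
  intro t p u q _ hpu hpq ht
  have hR' : ∀ v : ℕ, R * (v : ℝ) ≤ 5 * v := fun v =>
    mul_le_mul_of_nonneg_right hR (Nat.cast_nonneg v)
  rcases le_or_gt u q with huq | hqu
  · -- only the left service
    have h1 : min (q : ℝ) u = u := min_eq_right (by exact_mod_cast huq)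
    rw [h1] at ht
    have ht' : 4 * u + p ≤ t := by
      have : (4 * (u : ℝ) + p) ≤ t := by linarith
      exact_mod_cast this
    refine win_of_le (t0 := 4 * u + p) ⟨5 * u, ?_⟩ ht'
    refine Win.l (u - p) ?_ ?_ (by omega)
    · refine Win.done ?_ (by omega)
      have e1 : p + (u - p) = u := by omega
      have e2 : 4 * u + p + (u - p) = 5 * u := by omega
      rw [e1, e2]; push_cast; exact hR' u
    · have e2 : 4 * u + p + (u - p) = 5 * u := by omega
      rw [e2]; push_cast; exact hR' u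
  · have h1 : min (q : ℝ) u = q := min_eq_left (by exact_mod_cast hqu.le)
    rw [h1] at ht
    have ht' : 3 * u + p + q ≤ t := by
      have : (3 * (u : ℝ) + p + q) ≤ t := by linarith
      exact_mod_cast this
    refine win_of_le (t0 := 3 * u + p + q) ⟨5 * u, ?_⟩ ht'
    have e1 : 3 * u + p + q + (u - p) = 4 * u + q := by omega
    have e2 : 4 * u + q + (u - q) = 5 * u := by omega
    have e3 : p + (u - p) = u := by omega
    have e4 : q + (u - q) = u := by omega
    refine Win.lr (u - p) (u - q) ?_ ?_ ?_ (by omega)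
    · rw [e1, e3]
      refine Win.l (u - q) ?_ ?_ (by omega)
      · rw [e2]
        refine Win.done ?_ le_rfl
        have h3 : ((p + (u - q) : ℕ) : ℝ) ≤ u := by
          have : p + (u - q) ≤ u := by omega
          exact_mod_cast this
        have h4 := hR' (p + (u - q))
        push_cast at h4 h3 ⊢
        linarith
      · rw [e2]; push_cast; exact hR' u
    · rw [e1, e2, e4]
      refine Win.done ?_ le_rfl
      push_cast; exact hR' u
    · rw [e1, e2]; push_cast; exact hR' u

/-- Case B: only the left service. Real inequality. -/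
lemma ineqB {s e η U v y A : ℝ} (hs1 : -1 ≤ s) (hs2 : s < 1) (he : 0 < e) (hη : η = e / 100)
    (he1 : e ≤ 1)
    (hU : 1000 ≤ e * U) (hvU : v ≤ U) (hyv : y ≤ v) (hy0 : 0 ≤ y)
    (hA : A = (2 - s) * v + y - e * U) (h1 : v < A + 1) (h2 : (2 - s) * y < 4 / 5 * (e * U) + 1) :
    (2 + s + η) * (A + 1) ≤ 4 * v - e * U := by
  have hpos : 0 < 1 - s := by linarith
  have hU0 : 0 < U := by
    by_contra h
    push Not at h
    have : e * U ≤ 0 := mul_nonpos_of_nonneg_of_nonpos he.le h
    linarith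
  have hA4 : A + 1 ≤ 4 * U := by
    have : (2 - s) * v ≤ 3 * v := by
      have : 0 ≤ (1 + s) * v := mul_nonneg (by linarith) (by linarith)
      nlinarith
    linarith
  have h1' : e * U - y - 1 < (1 - s) * v := by rw [hA] at h1; nlinarith
  -- the key quantity
  have key : 0 ≤ (1 - s) * ((4 * v - e * U) - (2 + s + η) * (A + 1)) := by
    have e1 : (1 - s) * ((4 * v - e * U) - (2 + s + η) * (A + 1))
        = s ^ 2 * ((1 - s) * v - (e * U - y - 1)) + (e * U - (2 - s) * y - (2 - s))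
          - (1 - s) * η * (A + 1) := by
      rw [hA]; ring
    rw [e1]
    have h3 : 0 ≤ s ^ 2 * ((1 - s) * v - (e * U - y - 1)) :=
      mul_nonneg (sq_nonneg s) (by linarith)
    have h4 : (1 - s) * η * (A + 1) ≤ 2 * (e / 100) * (4 * U) := by
      rw [hη]
      have h5 : 0 ≤ e / 100 := by positivity
      have h6 : (1 - s) * (e / 100) ≤ 2 * (e / 100) :=
        mul_le_mul_of_nonneg_right (by linarith) h5
      have h7 : 0 ≤ A + 1 := by linarith
      calc (1 - s) * (e / 100) * (A + 1) ≤ 2 * (e / 100) * (A + 1) :=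
            mul_le_mul_of_nonneg_right h6 h7
        _ ≤ 2 * (e / 100) * (4 * U) := mul_le_mul_of_nonneg_left hA4 (by positivity)
    linarith
  have := (mul_nonneg_iff_of_pos_left hpos).1 key
  linarith

/-- Case A, right child. -/
lemma ineqR {s e η U y b : ℝ} (hs1 : -1 ≤ s) (hs2 : s < 1) (he : 0 < e) (hη : η = e / 100)
    (he1 : e ≤ 1) (hU : 1000 ≤ e * U) (hyU : y ≤ U) (hy0 : 0 ≤ y)
    (hb : b ≤ (2 - s) * y - 4 / 5 * (e * U)) (hb0 : 0 ≤ b) (h1 : y < b) :
    (2 + s + η) * b ≤ 4 * y - e * U := by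
  have hpos : 0 < 1 - s := by linarith
  have hU0 : 0 ≤ U := by linarith
  have hb3 : b ≤ 3 * U := by
    have : (2 - s) * y ≤ 3 * y := mul_le_mul_of_nonneg_right (by linarith) hy0
    linarith
  have h1' : 4 / 5 * (e * U) < (1 - s) * y := by nlinarith
  have h2 : (2 + s) * b ≤ (2 + s) * ((2 - s) * y - 4 / 5 * (e * U)) :=
    mul_le_mul_of_nonneg_left hb (by linarith)
  have h3 : η * b ≤ e / 100 * (3 * U) := by
    rw [hη]; exact mul_le_mul_of_nonneg_left hb3 (by positivity)
  have key : 0 ≤ (1 - s) * ((4 * y - e * U) - ((2 + s) * ((2 - s) * y - 4 / 5 * (e * U))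
      + e / 100 * (3 * U))) := by
    have e1 : (1 - s) * ((4 * y - e * U) - ((2 + s) * ((2 - s) * y - 4 / 5 * (e * U))
      + e / 100 * (3 * U))) = s ^ 2 * ((1 - s) * y - 4 / 5 * (e * U))
        + (e * U) * (3 / 5 + s / 5 - (1 - s) * 3 / 100) := by ring
    rw [e1]
    have h4 : 0 ≤ s ^ 2 * ((1 - s) * y - 4 / 5 * (e * U)) :=
      mul_nonneg (sq_nonneg s) (by linarith)
    have h5 : 0 ≤ (e * U) * (3 / 5 + s / 5 - (1 - s) * 3 / 100) :=
      mul_nonneg (by linarith) (by linarith)
    linarith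
  have := (mul_nonneg_iff_of_pos_left hpos).1 key
  nlinarith

/-- Case A, left child with own load at least `u`. -/
lemma ineqL1 {s e η U v y a b : ℝ} (hs1 : -1 ≤ s) (hs2 : s < 1) (he : 0 < e) (hη : η = e / 100)
    (he1 : e ≤ 1) (hU : 1000 ≤ e * U) (hvU : v ≤ U) (hyv : y ≤ v) (hy0 : 0 ≤ y)
    (hb : b ≤ (2 - s) * y - 4 / 5 * (e * U))
    (ha : a ≤ (2 - s) * v - (1 - s) * y - 1 / 5 * (e * U) + 2) (h1 : v ≤ a) :
    (2 + s + η) * a ≤ 4 * v - e * U - b := by
  have hpos : 0 < 1 - s := by linarith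
  have hv0 : 0 ≤ v := by linarith
  have hU0 : 0 ≤ U := by linarith
  set ar := (2 - s) * v - (1 - s) * y - 1 / 5 * (e * U) + 2 with har
  have h3v : (2 - s) * v ≤ 3 * v := mul_le_mul_of_nonneg_right (by linarith) hv0
  have hy' : 0 ≤ (1 - s) * y := mul_nonneg hpos.le hy0
  have har3 : ar ≤ 3 * U := by rw [har]; linarith
  have har0 : 0 ≤ ar := by linarith
  have h2 : (2 + s + η) * a ≤ (2 + s + η) * ar := by
    refine mul_le_mul_of_nonneg_left ha ?_
    rw [hη]; have : 0 ≤ e / 100 := by positivity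
    linarith
  have h3 : η * ar ≤ e / 100 * (3 * U) := by
    rw [hη]; exact mul_le_mul_of_nonneg_left har3 (by positivity)
  have key : 0 ≤ (1 - s) * ((4 * v - e * U - ((2 - s) * y - 4 / 5 * (e * U)))
      - ((2 + s) * ar + e / 100 * (3 * U))) := by
    have e1 : (1 - s) * ((4 * v - e * U - ((2 - s) * y - 4 / 5 * (e * U)))
      - ((2 + s) * ar + e / 100 * (3 * U))) =
        s ^ 2 * ((1 - s) * (v - y) - 1 / 5 * (e * U) + 2) + 1 / 5 * (e * U) - 2 * s ^ 2
          - (1 - s) * (2 * (2 + s) + 3 / 100 * (e * U)) := by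
      rw [har]; ring
    rw [e1]
    have h4 : 0 ≤ s ^ 2 * ((1 - s) * (v - y) - 1 / 5 * (e * U) + 2) :=
      mul_nonneg (sq_nonneg s) (by rw [har] at ha; nlinarith)
    have h5 : s ^ 2 ≤ 1 := by nlinarith
    have h6 : (1 - s) * (2 * (2 + s) + 3 / 100 * (e * U)) ≤ 2 * (6 + 3 / 100 * (e * U)) := by
      have h7 : 0 ≤ 2 * (2 + s) + 3 / 100 * (e * U) := by linarith
      calc (1 - s) * (2 * (2 + s) + 3 / 100 * (e * U))
          ≤ 2 * (2 * (2 + s) + 3 / 100 * (e * U)) :=
            mul_le_mul_of_nonneg_right (by linarith) h7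
        _ ≤ 2 * (6 + 3 / 100 * (e * U)) := by linarith
    linarith
  have := (mul_nonneg_iff_of_pos_left hpos).1 key
  nlinarith

/-- Case A, left child with own load less than `u`. -/
lemma ineqL2 {s e η U v y a b : ℝ} (hs1 : -1 ≤ s) (hs2 : s < 1) (he : 0 < e) (hη : η = e / 100)
    (he1 : e ≤ 1) (hU : 1000 ≤ e * U) (hvU : v ≤ U) (hyv : y ≤ v) (hy0 : 0 ≤ y)
    (hb : b ≤ (2 - s) * y - 4 / 5 * (e * U)) (ha0 : 0 ≤ a)
    (ha : a ≤ (2 - s) * v - (1 - s) * y - 1 / 5 * (e * U) + 2)
    (ha' : (2 - s) * v - (1 - s) * y - 1 / 5 * (e * U) - 1 ≤ a) (h1 : a < v) :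
    (3 + s + η) * a ≤ 5 * v - e * U - b := by
  have hpos : 0 < 1 - s := by linarith
  have hv0 : 0 ≤ v := by linarith
  have hU0 : 0 ≤ U := by linarith
  set ar := (2 - s) * v - (1 - s) * y - 1 / 5 * (e * U) + 2 with har
  have har3 : ar ≤ 4 * U := by
    have h3v : (2 - s) * v ≤ 3 * v := mul_le_mul_of_nonneg_right (by linarith) hv0
    have hy' : 0 ≤ (1 - s) * y := mul_nonneg hpos.le hy0
    rw [har]; linarith
  have har0 : 0 ≤ ar := by linarith
  have h2 : (3 + s + η) * a ≤ (3 + s + η) * ar := by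
    refine mul_le_mul_of_nonneg_left ha ?_
    rw [hη]; have : 0 ≤ e / 100 := by positivity
    linarith
  have h3 : η * ar ≤ e / 100 * (4 * U) := by
    rw [hη]; exact mul_le_mul_of_nonneg_left har3 (by positivity)
  have hd : (1 - s) * (v - y) ≤ 1 / 5 * (e * U) + 1 := by rw [har] at *; nlinarith
  have key : 0 ≤ (1 - s) * ((5 * v - e * U - ((2 - s) * y - 4 / 5 * (e * U)))
      - ((3 + s) * ar + e / 100 * (4 * U))) := by
    have e1 : (1 - s) * ((5 * v - e * U - ((2 - s) * y - 4 / 5 * (e * U)))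
      - ((3 + s) * ar + e / 100 * (4 * U))) =
        (s ^ 2 + s - 1) * ((1 - s) * (v - y)) + (2 + s) * (1 - s) * (1 / 5 * (e * U))
          - (1 - s) * (2 * (3 + s) + 4 / 100 * (e * U)) := by
      rw [har]; ring
    rw [e1]
    have h6 : (1 - s) * (2 * (3 + s) + 4 / 100 * (e * U)) ≤ 2 * (8 + 4 / 100 * (e * U)) := by
      have h7 : 0 ≤ 2 * (3 + s) + 4 / 100 * (e * U) := by linarith
      calc (1 - s) * (2 * (3 + s) + 4 / 100 * (e * U))
          ≤ 2 * (2 * (3 + s) + 4 / 100 * (e * U)) :=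
            mul_le_mul_of_nonneg_right (by linarith) h7
        _ ≤ 2 * (8 + 4 / 100 * (e * U)) := by linarith
    have hZ0 : 0 ≤ (1 - s) * (v - y) := mul_nonneg hpos.le (by linarith)
    rcases le_or_gt 0 (s ^ 2 + s - 1) with hk | hk
    · have h8 : 0 ≤ (s ^ 2 + s - 1) * ((1 - s) * (v - y)) := mul_nonneg hk hZ0
      have h9 : 0 ≤ (1 - s) * ((2 + s) * (1 / 5 * (e * U)) - (2 * (3 + s) + 4 / 100 * (e * U))) := by
        refine mul_nonneg hpos.le ?_
        nlinarith
      nlinarith
    · have h8 : (s ^ 2 + s - 1) * (1 / 5 * (e * U) + 1)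
          ≤ (s ^ 2 + s - 1) * ((1 - s) * (v - y)) := mul_le_mul_of_nonpos_left hd hk.le
      have h9 : (s ^ 2 + s - 1) * (1 / 5 * (e * U) + 1) + (2 + s) * (1 - s) * (1 / 5 * (e * U))
          = 1 / 5 * (e * U) + (s ^ 2 + s - 1) := by ring
      have h10 : -2 ≤ s ^ 2 + s - 1 := by nlinarith [sq_nonneg (s + 1 / 2)]
      linarith
  have := (mul_nonneg_iff_of_pos_left hpos).1 key
  nlinarith

/-- The one-step lemma. -/
lemma PP_step {e s : ℝ} {u0 u1 : ℕ} (he : 0 < e) (he1 : e ≤ 1) (hs1 : -1 ≤ s) (hs2 : s < 1)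
    (hu0 : 1000 ≤ e * u0) (hu1 : 2 * u1 ≤ u0) (h : PP (5 - e) u1 (s + e / 100)) :
    PP (5 - e) u0 s := by
  intro t p u q hu hpu hpq ht
  set η := e / 100 with hη
  have hη0 : 0 < η := by rw [hη]; positivity
  have hU : 1000 ≤ e * (u : ℝ) :=
    hu0.trans (mul_le_mul_of_nonneg_left (by exact_mod_cast hu) he.le)
  have hU0 : (0 : ℝ) ≤ u := Nat.cast_nonneg u
  have hP0 : (0 : ℝ) ≤ p := Nat.cast_nonneg p
  have hpuR : (p : ℝ) ≤ u := by exact_mod_cast hpu
  have hpqR : (p : ℝ) ≤ q := by exact_mod_cast hpq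
  set Q : ℝ := min (q : ℝ) u with hQ
  have hpQ : (p : ℝ) ≤ Q := le_min hpqR hpuR
  have hQu : Q ≤ u := min_le_right _ _
  set v : ℝ := u - p with hv
  set y : ℝ := u - Q with hy
  have hvU : v ≤ u := by rw [hv]; linarith
  have hyv : y ≤ v := by rw [hv, hy]; linarith
  have hy0 : 0 ≤ y := by rw [hy]; linarith
  have hv0 : 0 ≤ v := by linarith
  set th : ℝ := 2 * (u : ℝ) + 2 * p + Q + s * (u - p) with hth
  have hsv : -v ≤ s * v := by nlinarith
  have hth0 : 0 ≤ th := by
    rw [hth, ← hv]; rw [hv] at hsv ⊢; linarith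
  set t0 := ⌈th⌉₊ with ht0
  have ht0a : th ≤ t0 := Nat.le_ceil _
  have ht0b : (t0 : ℝ) < th + 1 := Nat.ceil_lt_add_one hth0
  have ht0t : t0 ≤ t := Nat.ceil_le.2 ht
  refine win_of_le (t0 := t0) ?_ ht0t
  have hR0 : 0 ≤ (5 - e) * (u : ℝ) := mul_nonneg (by linarith) hU0
  set N := ⌈(5 - e) * (u : ℝ)⌉₊ with hN
  have hNa : (5 - e) * (u : ℝ) ≤ N := Nat.le_ceil _
  have hNb : (N : ℝ) < (5 - e) * u + 1 := Nat.ceil_lt_add_one hR0
  rcases le_or_gt N t0 with hle | hlt
  · exact ⟨t0, Win.done (hNa.trans (by exact_mod_cast hle)) le_rfl⟩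
  have hltR : (t0 : ℝ) + 1 ≤ N := by exact_mod_cast hlt
  set A : ℝ := (2 - s) * v + y - e * u with hA
  have hAeq : (5 - e) * (u : ℝ) - th = A := by
    rw [hA, hth, hv, hy]; ring
  rcases lt_or_ge ((2 - s) * y - 4 / 5 * (e * u)) 1 with hB | hAcase
  · -- only the left service
    obtain ⟨a, ha⟩ : ∃ a, N = t0 + a := Nat.exists_eq_add_of_le hlt.le
    have haR : (N : ℝ) = t0 + a := by rw [ha]; push_cast; ring
    have haA : (a : ℝ) ≤ A + 1 := by linarith
    have hchild : ∃ C, Win (5 - e) C (t0 + a) p (p + a) u := by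
      rcases le_or_gt (p + a) u with h1 | h1
      · refine ⟨t0 + a, Win.done ?_ le_rfl⟩
        rw [← ha]
        have h2 : ((p + a : ℕ) : ℝ) ≤ u := by exact_mod_cast h1
        have h3 := mul_le_mul_of_nonneg_left h2 (show (0 : ℝ) ≤ 5 - e by linarith)
        linarith
      · have h1R : (u : ℝ) < p + a := by exact_mod_cast h1
        have hkey := ineqB (U := (u : ℝ)) (η := η) hs1 hs2 he hη he1 hU hvU hyv hy0 hA
          (by rw [hv]; linarith) (by linarith)
        refine h (t0 + a) p (p + a) u (by omega) (by omega) hpu ?_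
        rw [← ha]
        push_cast
        rw [min_eq_left (by linarith)]
        have h5 : (2 + s + η) * (a : ℝ) ≤ (2 + s + η) * (A + 1) :=
          mul_le_mul_of_nonneg_left haA (by linarith)
        have h6 : 4 * v - e * u = (5 - e) * u - 4 * p - u := by rw [hv]; ring
        linarith
    obtain ⟨C, hC⟩ := hchild
    refine ⟨max C N, Win.l a (hC.monoC (le_max_left _ _)) ?_ ?_⟩
    · rw [← ha]; exact hNa
    · rw [← ha]; exact le_max_right _ _
  · -- both services
    have hyp : 0 < y := by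
      by_contra hcon
      have : y = 0 := le_antisymm (not_lt.1 hcon) hy0
      rw [this] at hAcase
      nlinarith
    have hqu : q < u := by
      by_contra hcon
      have : Q = u := by rw [hQ]; exact min_eq_right (by exact_mod_cast not_lt.1 hcon)
      rw [hy, this] at hyp
      simp at hyp
    have hQq : Q = q := by rw [hQ]; exact min_eq_left (by exact_mod_cast hqu.le)
    set br : ℝ := (2 - s) * y - 4 / 5 * (e * u) with hbr
    set b := ⌊br⌋₊ with hb
    have hb1 : (b : ℝ) ≤ br := Nat.floor_le (by linarith)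
    have hb2 : br < b + 1 := Nat.lt_floor_add_one _
    set ar : ℝ := (2 - s) * v - (1 - s) * y - 1 / 5 * (e * u) with har
    have hAar : A = ar + br := by rw [hA, har, hbr]; ring
    -- `a` is positive
    have hvbig : e * u - 2 < 4 * v := by
      have h1 : 0 < A + 1 := by linarith
      have h2 : (2 - s) * v ≤ 3 * v := mul_le_mul_of_nonneg_right (by linarith) hv0
      rw [hA] at h1
      linarith
    have harv : v - 1 / 5 * (e * u) ≤ ar := by
      have : 0 ≤ (1 - s) * (v - y) := mul_nonneg (by linarith) (by linarith)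
      rw [har]; nlinarith
    have hsum : t0 + b < N := by
      have : ((t0 + b : ℕ) : ℝ) < N := by
        push_cast
        linarith
      exact_mod_cast this
    obtain ⟨a, ha⟩ : ∃ a, N = t0 + a + b := by
      obtain ⟨a, ha⟩ := Nat.exists_eq_add_of_le hsum.le
      exact ⟨a, by omega⟩
    have haR : (N : ℝ) = t0 + a + b := by rw [ha]; push_cast; ring
    have ha1 : (a : ℝ) ≤ ar + 2 := by linarith
    have ha2 : ar - 1 ≤ a := by linarith
    have ha0 : (0 : ℝ) ≤ a := Nat.cast_nonneg a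
    have hb0 : (0 : ℝ) ≤ b := Nat.cast_nonneg b
    have hL : ∃ C, Win (5 - e) C (t0 + a) p (p + a) u := by
      rcases le_or_gt u (p + a) with h1 | h1
      · have h1R : (u : ℝ) ≤ p + a := by exact_mod_cast h1
        have hkey := ineqL1 (U := (u : ℝ)) (η := η) (a := a) (b := b) (v := v) (y := y)
          hs1 hs2 he hη he1 hU hvU hyv hy0 hb1 ha1 (by rw [hv]; linarith)
        refine h (t0 + a) p (p + a) u (by omega) (by omega) hpu ?_
        push_cast
        rw [min_eq_left (by linarith)]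
        have h6 : 4 * v - e * u = (5 - e) * u - 4 * p - u := by rw [hv]; ring
        linarith
      · have h1R : (p : ℝ) + a < u := by exact_mod_cast h1
        have hkey := ineqL2 (U := (u : ℝ)) (η := η) (a := a) (b := b) (v := v) (y := y)
          hs1 hs2 he hη he1 hU hvU hyv hy0 hb1 ha0 ha1 ha2 (by rw [hv]; linarith)
        have hu2 : u1 ≤ p + a := by
          have h7 : (u : ℝ) / 2 ≤ p + a := by
            have h8 : v - 1 / 5 * (e * u) - 1 ≤ a := by linarith
            have h9 : e * u ≤ u := by nlinarith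
            have h10 : (1000 : ℝ) ≤ u := by linarith
            have h11 : v = u - p := hv
            linarith
          have h8 : (2 * (u1 : ℝ)) ≤ u := by
            have : 2 * u1 ≤ u := hu1.trans hu
            exact_mod_cast this
          have h9 : (u1 : ℝ) ≤ ((p + a : ℕ) : ℝ) := by push_cast; linarith
          exact_mod_cast h9
        refine h (t0 + a) p (p + a) u hu2 (by omega) hpu ?_
        push_cast
        rw [min_eq_right (by linarith)]
        have h6 : 5 * v - e * u = (5 - e) * u - 5 * p := by rw [hv]; ring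
        linarith
    have hRt : ∃ C, Win (5 - e) C (t0 + a + b) u (q + b) q := by
      rcases le_or_gt (q + b) u with h1 | h1
      · refine ⟨t0 + a + b, Win.done ?_ le_rfl⟩
        rw [← ha]
        have h2 : ((q + b : ℕ) : ℝ) ≤ u := by exact_mod_cast h1
        have h3 := mul_le_mul_of_nonneg_left h2 (show (0 : ℝ) ≤ 5 - e by linarith)
        linarith
      · have h1R : (u : ℝ) < q + b := by exact_mod_cast h1
        have hkey := ineqR (U := (u : ℝ)) (η := η) (b := b) (y := y)
          hs1 hs2 he hη he1 hU (by linarith) hy0 hb1 hb0 (by rw [hy, hQq]; linarith)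
        obtain ⟨C, hC⟩ := h (t0 + a + b) q (q + b) u (by omega) (by omega) hqu.le (by
          rw [← ha]
          push_cast
          rw [min_eq_left (by linarith)]
          have h6 : 4 * y - e * u = (5 - e) * u - 4 * q - u := by rw [hy, hQq]; ring
          linarith)
        exact ⟨C, hC.flip⟩
    obtain ⟨C1, hC1⟩ := hL
    obtain ⟨C2, hC2⟩ := hRt
    refine ⟨max (max C1 C2) N, Win.lr a b (hC1.monoC ?_) (hC2.monoC ?_) ?_ ?_⟩
    · exact (le_max_left _ _).trans (le_max_left _ _)
    · exact (le_max_right _ _).trans (le_max_left _ _)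
    · rw [← ha]; exact hNa
    · rw [← ha]; exact le_max_right _ _


lemma PP.mono {R s s' : ℝ} {u0 u1 : ℕ} (h : PP R u0 s) (hs : s ≤ s') (hu : u0 ≤ u1) :
    PP R u1 s' := by
  intro t p u q hu' hpu hpq ht
  refine h t p u q (hu.trans hu') hpu hpq (le_trans ?_ ht)
  have : (0 : ℝ) ≤ u - p := by
    have : (p : ℝ) ≤ u := by exact_mod_cast hpu
    linarith
  have := mul_le_mul_of_nonneg_right hs this
  linarith

lemma exists_PP {e : ℝ} (he : 0 < e) (he1 : e ≤ 1) (k : ℕ) :
    ∃ u0, PP (5 - e) u0 (max (-1) (1 - k * (e / 100))) := by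
  induction k with
  | zero =>
    refine ⟨0, ?_⟩
    have : max (-1 : ℝ) (1 - ((0 : ℕ) : ℝ) * (e / 100)) = 1 := by norm_num
    rw [this]
    exact PP_one (by linarith) 0
  | succ k ih =>
    obtain ⟨u1, h1⟩ := ih
    refine ⟨max (2 * u1) ⌈1000 / e⌉₊, ?_⟩
    have hk : 0 ≤ (k : ℝ) * (e / 100) := by positivity
    refine PP_step (u1 := u1) he he1 (le_max_left _ _) (max_lt (by norm_num) ?_) ?_
      (le_max_left _ _) (h1.mono ?_ le_rfl)
    · push_cast
      have : 0 < e / 100 := by positivity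
      linarith
    · have h2 : 1000 / e ≤ ((max (2 * u1) ⌈1000 / e⌉₊ : ℕ) : ℝ) :=
        (Nat.le_ceil _).trans (by exact_mod_cast le_max_right _ _)
      rw [div_le_iff₀ he] at h2
      linarith
    · have h3 : 0 < e / 100 := by positivity
      refine max_le ?_ ?_
      · linarith [le_max_left (-1 : ℝ) (1 - ((k + 1 : ℕ) : ℝ) * (e / 100))]
      · have h4 := le_max_right (-1 : ℝ) (1 - ((k + 1 : ℕ) : ℝ) * (e / 100))
        push_cast at h4 ⊢
        linarith

/-- For every ratio `5 - e < 5` the adversary's strategy wins. -/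
theorem exists_win {e : ℝ} (he : 0 < e) (he1 : e ≤ 1) :
    ∃ u C : ℕ, 1 ≤ u ∧ Win (5 - e) C u 0 u 0 := by
  obtain ⟨k, hk⟩ := exists_nat_ge (200 / e)
  obtain ⟨u0, hu0⟩ := exists_PP he he1 k
  have h1 : max (-1 : ℝ) (1 - k * (e / 100)) = -1 := by
    rw [div_le_iff₀ he] at hk
    refine max_eq_left ?_
    linarith
  rw [h1] at hu0
  obtain ⟨C, hC⟩ := hu0 (max u0 1) 0 (max u0 1) 0 (le_max_left _ _) (by omega) le_rfl (by
    have h2 : (0 : ℝ) ≤ ((max u0 1 : ℕ) : ℝ) := Nat.cast_nonneg _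
    rw [min_eq_left (by push_cast at h2 ⊢; exact h2)]
    push_cast
    linarith)
  exact ⟨max u0 1, C, le_max_right _ _, hC⟩

end FFLower
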