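import Pool.Agent.Helper13.FF.Wall

/-!
First-Fit on interval graphs uses at most `(3 + 2√2) ω(G)` colours.
-/

namespace Pool.Agent.Helper13.FF.SilverRatioBound

open Finset

/-- `G` is an interval graph: its vertices can be identified with a family of closed intervals
`[a v, b v]` of the line, two distinct vertices being adjacent exactly when their intervals
intersect. -/
def IsIntervalGraph {V : Type} (G : SimpleGraph V) : Prop :=
  ∃ a b : V → ℝ, (∀ v, a v ≤ b v) ∧
    ∀ u v, G.Adj u v ↔ u ≠ v ∧ (Set.Icc (a u) (b u) ∩ Set.Icc (a v) (b v)).Nonempty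

/-- The First-Fit colour of the `i`-th vertex `e i` for the vertex ordering
`e 0, e 1, …, e (n-1)`: the least positive integer not already used on a neighbour of `e i`
among `e j`, `j < i`. -/
noncomputable def firstFit {n : ℕ} (G : SimpleGraph (Fin n)) (e : Equiv.Perm (Fin n))
    (i : Fin n) : ℕ :=
  sInf {c : ℕ | 1 ≤ c ∧ ∀ j : Fin n, ∀ _h : j < i, G.Adj (e j) (e i) → firstFit G e j ≠ c}
termination_by i.val
decreasing_by exact _h

/-- `χ_FF(G)`: the largest number of colours First-Fit uses on `G`, over all orderings. -/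
noncomputable def chiFF {n : ℕ} (G : SimpleGraph (Fin n)) : ℕ :=
  univ.sup fun e : Equiv.Perm (Fin n) => (univ.image (firstFit G e)).card

/-- `f(k)`: the maximum of `χ_FF(G)` over all interval graphs with clique number `k`. -/
noncomputable def f (k : ℕ) : ℕ :=
  sSup {m : ℕ | ∃ (n : ℕ) (G : SimpleGraph (Fin n)),
    IsIntervalGraph G ∧ G.cliqueNum = k ∧ chiFF G = m}

/-- The asymptotic performance ratio `R = limsup f(k)/k`. -/
noncomputable def R : ℝ := Filter.limsup (fun k : ℕ => (f k : ℝ) / k) Filter.atTop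

/-! ### First-Fit colourings -/

section ff

variable {n : ℕ} (G : SimpleGraph (Fin n)) (e : Equiv.Perm (Fin n))

lemma ff_set_nonempty (i : Fin n) :
    {c : ℕ | 1 ≤ c ∧ ∀ j : Fin n, ∀ _h : j < i, G.Adj (e j) (e i) → firstFit G e j ≠ c}.Nonempty := by
  refine ⟨(univ.sup fun j : Fin n => firstFit G e j) + 1, by omega, fun j _ _ h => ?_⟩
  have : firstFit G e j ≤ univ.sup fun j : Fin n => firstFit G e j :=
    le_sup (f := fun j : Fin n => firstFit G e j) (mem_univ j)
  omega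

lemma ff_mem (i : Fin n) : firstFit G e i ∈
    {c : ℕ | 1 ≤ c ∧ ∀ j : Fin n, ∀ _h : j < i, G.Adj (e j) (e i) → firstFit G e j ≠ c} := by
  rw [firstFit]
  exact Nat.sInf_mem (ff_set_nonempty G e i)

lemma ff_support (i : Fin n) {s : ℕ} (hs : 1 ≤ s) (hlt : s < firstFit G e i) :
    ∃ j, G.Adj (e j) (e i) ∧ firstFit G e j = s := by
  by_contra hcon
  push Not at hcon
  have h1 : s ∈ {c : ℕ | 1 ≤ c ∧ ∀ j : Fin n, ∀ _h : j < i,
      G.Adj (e j) (e i) → firstFit G e j ≠ c} := ⟨hs, fun j _ hadj => hcon j hadj⟩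
  have h2 := Nat.sInf_le h1
  rw [firstFit] at hlt
  omega

end ff

lemma firstFit_le {n : ℕ} {G : SimpleGraph (Fin n)} (hG : IsIntervalGraph G)
    (e : Equiv.Perm (Fin n)) (i : Fin n) :
    (firstFit G e i : ℝ) ≤ (3 + 2 * √2) * G.cliqueNum := by
  classical
  obtain ⟨a, b, hab, hadj⟩ := hG
  set z : ℝ := √2 - 1 with hz
  have h2 : √2 * √2 = 2 := Real.mul_self_sqrt (by norm_num)
  have h2' : (1 : ℝ) < √2 := by
    rw [Real.lt_sqrt (by norm_num)]; norm_num
  have h2'' : √2 < 2 := by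
    rw [Real.sqrt_lt (by norm_num) (by norm_num)]; norm_num
  have hz0 : 0 < z := by rw [hz]; linarith
  have hz1 : z ≤ 1 := by rw [hz]; linarith
  have hK : ∀ x : ℝ, ∀ s : Finset (Fin n), (∀ v ∈ s, x ∈ Set.Icc (a v) (b v)) →
      s.card ≤ G.cliqueNum := by
    intro x s hs
    have hcl : G.IsClique (s : Set (Fin n)) := by
      intro u hu v hv huv
      exact (hadj u v).2 ⟨huv, x, hs u hu, hs v hv⟩
    exact hcl.card_le_cliqueNum
  have key := FFInterval.wall_ineq (a := a) (b := b) (col := fun v => firstFit G e (e.symm v))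
    hz0 hz1 hab (fun v s hs hlt => by
      obtain ⟨j, hj1, hj2⟩ := ff_support G e (e.symm v) hs hlt
      refine ⟨e j, by simpa using hj2, ?_⟩
      have := ((hadj _ _).1 hj1).2
      simpa using this) G.cliqueNum hK (e i) (by simpa using (ff_mem G e i).1)
  simp only [Equiv.symm_apply_apply] at key
  have h3 : (1 - z) ^ 2 * z = 10 * √2 - 14 := by
    rw [hz]; ring_nf; nlinarith [h2, sq_nonneg (√2)]
  have h4 : 1 - z ^ 2 = 2 * √2 - 2 := by rw [hz]; nlinarith
  rw [mul_assoc, h3, h4] at key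
  have h5 : 0 < 10 * √2 - 14 := by nlinarith
  have h6 : (2 * √2 - 2) = (3 + 2 * √2) * (10 * √2 - 14) := by nlinarith
  rw [h6] at key
  have h7 : (firstFit G e i : ℝ) * (10 * √2 - 14)
      ≤ ((3 + 2 * √2) * G.cliqueNum) * (10 * √2 - 14) := by nlinarith
  exact le_of_mul_le_mul_right h7 h5

lemma chiFF_le {n : ℕ} {G : SimpleGraph (Fin n)} (hG : IsIntervalGraph G) :
    (chiFF G : ℝ) ≤ (3 + 2 * √2) * G.cliqueNum := by
  classical
  have hc : (0 : ℝ) ≤ (3 + 2 * √2) * G.cliqueNum := by positivity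
  have : chiFF G ≤ ⌊(3 + 2 * √2) * (G.cliqueNum : ℝ)⌋₊ := by
    unfold chiFF
    refine Finset.sup_le fun e _ => ?_
    have hsub : univ.image (firstFit G e) ⊆ Finset.Icc 1 ⌊(3 + 2 * √2) * (G.cliqueNum : ℝ)⌋₊ := by
      intro c hc
      obtain ⟨i, _, rfl⟩ := mem_image.1 hc
      exact Finset.mem_Icc.2 ⟨(ff_mem G e i).1, Nat.le_floor (firstFit_le hG e i)⟩
    simpa using card_le_card hsub
  exact (Nat.cast_le.2 this).trans (Nat.floor_le hc)

/-- First-Fit uses at most `(3 + 2√2) ω(G)` colours on every interval graph `G`, and the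
asymptotic performance ratio `R` is at most `3 + 2√2`. -/
theorem result :
    (∀ (n : ℕ) (G : SimpleGraph (Fin n)), IsIntervalGraph G →
      (chiFF G : ℝ) ≤ (3 + 2 * √2) * G.cliqueNum) ∧
    (∀ k : ℕ, BddAbove {m : ℕ | ∃ (n : ℕ) (G : SimpleGraph (Fin n)),
      IsIntervalGraph G ∧ G.cliqueNum = k ∧ chiFF G = m}) ∧
    R ≤ 3 + 2 * √2 := by
  have hmain : ∀ (n : ℕ) (G : SimpleGraph (Fin n)), IsIntervalGraph G →
      (chiFF G : ℝ) ≤ (3 + 2 * √2) * G.cliqueNum := fun n G hG => chiFF_le hG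
  have hbdd : ∀ k : ℕ, ∀ m ∈ {m : ℕ | ∃ (n : ℕ) (G : SimpleGraph (Fin n)),
      IsIntervalGraph G ∧ G.cliqueNum = k ∧ chiFF G = m}, (m : ℝ) ≤ (3 + 2 * √2) * k := by
    rintro k m ⟨n, G, hG, hk, rfl⟩
    rw [← hk]
    exact hmain n G hG
  have hB : ∀ k : ℕ, BddAbove {m : ℕ | ∃ (n : ℕ) (G : SimpleGraph (Fin n)),
      IsIntervalGraph G ∧ G.cliqueNum = k ∧ chiFF G = m} := by
    intro k
    refine ⟨⌊(3 + 2 * √2) * (k : ℝ)⌋₊, fun m hm => Nat.le_floor (hbdd k m hm)⟩
  refine ⟨hmain, hB, ?_⟩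
  have hc : (0 : ℝ) ≤ 3 + 2 * √2 := by positivity
  have hf : ∀ k : ℕ, (f k : ℝ) ≤ (3 + 2 * √2) * k := by
    intro k
    rcases Set.eq_empty_or_nonempty {m : ℕ | ∃ (n : ℕ) (G : SimpleGraph (Fin n)),
      IsIntervalGraph G ∧ G.cliqueNum = k ∧ chiFF G = m} with h | h
    · unfold f
      rw [h]
      simp only [csSup_empty, Nat.bot_eq_zero, Nat.cast_zero]
      positivity
    · exact hbdd k _ (Nat.sSup_mem h (hB k))
  unfold R
  refine Filter.limsup_le_of_le ?_ (Filter.Eventually.of_forall fun k => ?_)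
  · refine Filter.IsCoboundedUnder.of_frequently_ge (a := 0) ?_
    exact Filter.Frequently.of_forall fun k => by positivity
  · rcases Nat.eq_zero_or_pos k with h | h
    · subst h; simpa using hc
    · rw [div_le_iff₀ (by exact_mod_cast h)]
      exact hf k

end Pool.Agent.Helper13.FF.SilverRatioBound
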