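import Pool.Agent.Helper13.FF.Core

namespace FFInterval

open Finset

section wall

variable {V : Type*} [Fintype V] (a b : V → ℝ) (col : V → ℕ)

open Classical in
/-- indicator of the points covered by an interval of colour `t + 1` -/
noncomputable def cov (t : ℕ) (p : ℝ) : ℝ :=
  if ∃ v, col v = t + 1 ∧ p ∈ Set.Icc (a v) (b v) then 1 else 0

variable {a b col}

lemma cov_nonneg (t : ℕ) (p : ℝ) : 0 ≤ cov a b col t p := by
  unfold cov; split_ifs <;> norm_num

lemma cov_eq_one {t : ℕ} {p : ℝ} {v : V} (hv : col v = t + 1) (hp : p ∈ Set.Icc (a v) (b v)) :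
    cov a b col t p = 1 := by
  unfold cov; rw [if_pos ⟨v, hv, hp⟩]

variable {z : ℝ} (hz0 : 0 < z) (hz1 : z ≤ 1)

include hz0 hz1

lemma one_le_wgt_self (A : Finset ℝ) {t : ℕ} {p : ℝ} (h : cov a b col t p = 1) :
    1 ≤ wgt z A (cov a b col t) p := by
  unfold wgt
  have h1 := lft_nonneg hz0.le A (cov_nonneg (a := a) (b := b) (col := col) t) p
  have h2 := rgt_nonneg hz0.le A (cov_nonneg (a := a) (b := b) (col := col) t) p
  have h3 : 1 ≤ cov a b col t p / z := by
    rw [h, le_div_iff₀ hz0]; linarith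
  linarith

omit hz1 in
lemma one_le_wgt_left {A : Finset ℝ} {t : ℕ} {p q : ℝ} (hq : q ∈ A) (hqp : q < p)
    (hno : ∀ s ∈ A, ¬ (q < s ∧ s < p)) (h : cov a b col t q = 1) :
    1 ≤ wgt z A (cov a b col t) p := by
  unfold wgt
  rw [lft_eq hq hqp hno, h]
  have h1 := lft_nonneg hz0.le A (cov_nonneg (a := a) (b := b) (col := col) t) q
  have h2 := rgt_nonneg hz0.le A (cov_nonneg (a := a) (b := b) (col := col) t) p
  have h3 : 0 ≤ cov a b col t p / z := div_nonneg (cov_nonneg t p) hz0.le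
  nlinarith [mul_nonneg hz0.le h1]

omit hz1 in
lemma one_le_wgt_right {A : Finset ℝ} {t : ℕ} {p q : ℝ} (hp : p ∈ A) (hqp : q < p)
    (hno : ∀ s ∈ A, ¬ (q < s ∧ s < p)) (h : cov a b col t p = 1) :
    1 ≤ wgt z A (cov a b col t) q := by
  unfold wgt
  rw [rgt_eq hp hqp hno, h]
  have h1 := lft_nonneg hz0.le A (cov_nonneg (a := a) (b := b) (col := col) t) q
  have h2 := rgt_nonneg hz0.le A (cov_nonneg (a := a) (b := b) (col := col) t) p
  have h3 : 0 ≤ cov a b col t q / z := div_nonneg (cov_nonneg t q) hz0.le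
  nlinarith [mul_nonneg hz0.le h2]

/-- every interval of large colour keeps an alive point -/
lemma alive_in_interval (hab : ∀ v, a v ≤ b v)
    (hff : ∀ v s, 1 ≤ s → s < col v → ∃ u, col u = s ∧
      (Set.Icc (a u) (b u) ∩ Set.Icc (a v) (b v)).Nonempty) (t : ℕ) :
    ∀ v, t < col v → ∃ p ∈ Al z (cov a b col) (univ.image a) t, p ∈ Set.Icc (a v) (b v) := by
  classical
  induction t with
  | zero =>
    intro v _
    exact ⟨a v, by simp, ⟨le_rfl, hab v⟩⟩
  | succ t ih =>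
    intro v hv
    set A := Al z (cov a b col) (univ.image a) t with hA
    have surv : ∀ p ∈ A, 1 ≤ wgt z A (cov a b col t) p →
        p ∈ Al z (cov a b col) (univ.image a) (t + 1) := by
      intro p hp hw
      rw [mem_Al_succ]
      refine ⟨hp, ?_⟩
      have := le_Wt z (cov a b col) (univ.image a) hp
      rw [Wt_succ]
      push_cast
      linarith
    obtain ⟨u, hu, y, ⟨hyu1, hyu2⟩, ⟨hyv1, hyv2⟩⟩ := hff v (t + 1) (by omega) hv
    obtain ⟨p, hpA, hpv⟩ := ih v (by omega)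
    obtain ⟨q, hqA, hqu⟩ := ih u (by omega)
    by_cases hpu : p ∈ Set.Icc (a u) (b u)
    · exact ⟨p, surv p hpA (one_le_wgt_self hz0 hz1 A (cov_eq_one hu hpu)), hpv⟩
    by_cases hqv : q ∈ Set.Icc (a v) (b v)
    · exact ⟨q, surv q hqA (one_le_wgt_self hz0 hz1 A (cov_eq_one hu hqu)), hqv⟩
    rcases lt_trichotomy q p with hqp | hqp | hqp
    · -- `q < p`
      have hqa : q < a v := by
        by_contra h
        exact hqv ⟨not_lt.1 h, hqp.le.trans hpv.2⟩
      have hne1 : (A.filter fun s => a v ≤ s).Nonempty := ⟨p, mem_filter.2 ⟨hpA, hpv.1⟩⟩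
      have hne2 : (A.filter fun s => s < a v).Nonempty := ⟨q, mem_filter.2 ⟨hqA, hqa⟩⟩
      set p' := (A.filter fun s => a v ≤ s).min' hne1
      set q' := (A.filter fun s => s < a v).max' hne2
      have hp' := mem_filter.1 (min'_mem (A.filter fun s => a v ≤ s) hne1)
      have hq' := mem_filter.1 (max'_mem (A.filter fun s => s < a v) hne2)
      have hp'p : p' ≤ p := min'_le _ _ (mem_filter.2 ⟨hpA, hpv.1⟩)
      have hq'q : q ≤ q' := le_max' _ _ (mem_filter.2 ⟨hqA, hqa⟩)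
      have hmin : ∀ s ∈ A, a v ≤ s → p' ≤ s := fun s hs h => min'_le _ _ (mem_filter.2 ⟨hs, h⟩)
      have hmax : ∀ s ∈ A, s < a v → s ≤ q' := fun s hs h => le_max' _ _ (mem_filter.2 ⟨hs, h⟩)
      have hno : ∀ s ∈ A, ¬ (q' < s ∧ s < p') := by
        rintro s hs ⟨h1, h2⟩
        rcases le_or_gt (a v) s with has | has
        · exact absurd (hmin s hs has) (not_le.2 h2)
        · exact absurd (hmax s hs has) (not_le.2 h1)
      have hq'u : q' ∈ Set.Icc (a u) (b u) := ⟨hqu.1.trans hq'q, by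
        have := hq'.2; linarith⟩
      refine ⟨p', surv p' hp'.1 (one_le_wgt_left hz0 hq'.1 (lt_of_lt_of_le hq'.2 hp'.2) hno
        (cov_eq_one hu hq'u)), hp'.2, hp'p.trans hpv.2⟩
    · exact absurd (hqp ▸ hqu) hpu
    · -- `p < q`
      have hpa : p < a u := by
        by_contra h
        exact hpu ⟨not_lt.1 h, hqp.le.trans hqu.2⟩
      have hne1 : (A.filter fun s => a u ≤ s).Nonempty := ⟨q, mem_filter.2 ⟨hqA, hqu.1⟩⟩
      have hne2 : (A.filter fun s => s < a u).Nonempty := ⟨p, mem_filter.2 ⟨hpA, hpa⟩⟩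
      set q' := (A.filter fun s => a u ≤ s).min' hne1
      set p' := (A.filter fun s => s < a u).max' hne2
      have hq' := mem_filter.1 (min'_mem (A.filter fun s => a u ≤ s) hne1)
      have hp' := mem_filter.1 (max'_mem (A.filter fun s => s < a u) hne2)
      have hq'q : q' ≤ q := min'_le _ _ (mem_filter.2 ⟨hqA, hqu.1⟩)
      have hp'p : p ≤ p' := le_max' _ _ (mem_filter.2 ⟨hpA, hpa⟩)
      have hmin : ∀ s ∈ A, a u ≤ s → q' ≤ s := fun s hs h => min'_le _ _ (mem_filter.2 ⟨hs, h⟩)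
      have hmax : ∀ s ∈ A, s < a u → s ≤ p' := fun s hs h => le_max' _ _ (mem_filter.2 ⟨hs, h⟩)
      have hno : ∀ s ∈ A, ¬ (p' < s ∧ s < q') := by
        rintro s hs ⟨h1, h2⟩
        rcases le_or_gt (a u) s with has | has
        · exact absurd (hmin s hs has) (not_le.2 h2)
        · exact absurd (hmax s hs has) (not_le.2 h1)
      have hp'v : p' ∈ Set.Icc (a v) (b v) := ⟨hpv.1.trans hp'p, by
        have := hp'.2; linarith⟩
      refine ⟨p', surv p' hp'.1 (one_le_wgt_right hz0 hq'.1 (lt_of_lt_of_le hp'.2 hq'.2) hno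
        (cov_eq_one hu ⟨hq'.2, hq'q.trans hqu.2⟩)), hp'v⟩

/-- The wall inequality for a general weight parameter. -/
lemma wall_ineq (hab : ∀ v, a v ≤ b v)
    (hff : ∀ v s, 1 ≤ s → s < col v → ∃ u, col u = s ∧
      (Set.Icc (a u) (b u) ∩ Set.Icc (a v) (b v)).Nonempty)
    (K : ℕ) (hK : ∀ x : ℝ, ∀ s : Finset V, (∀ v ∈ s, x ∈ Set.Icc (a v) (b v)) → s.card ≤ K)
    (v : V) (hv : 1 ≤ col v) :
    (col v : ℝ) * (1 - z) ^ 2 * z ≤ (1 - z ^ 2) * K := by
  classical
  obtain ⟨m, hm⟩ : ∃ m, col v = m + 1 := ⟨col v - 1, by omega⟩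
  -- an alive point in the interval of `v`
  obtain ⟨p, hpA, hpv⟩ := alive_in_interval hz0 hz1 hab hff m v (by omega)
  have hp1 : p ∈ Al z (cov a b col) (univ.image a) (m + 1) := by
    rw [mem_Al_succ]
    refine ⟨hpA, ?_⟩
    have h1 := le_Wt z (cov a b col) (univ.image a) hpA
    have h2 := one_le_wgt_self hz0 hz1 (Al z (cov a b col) (univ.image a) m) (cov_eq_one hm hpv)
    rw [Wt_succ]
    push_cast
    linarith
  obtain ⟨y, _, hy⟩ := main_ineq (cov a b col) (univ.image a) hz0 hz1 (m + 1) ⟨p, hp1⟩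
  rw [hm]
  refine hy.trans ?_
  have hz2 : 0 ≤ 1 - z ^ 2 := by nlinarith
  refine mul_le_mul_of_nonneg_left ?_ hz2
  -- count the intervals through `y`
  have h3 : ∑ s ∈ range (m + 1), cov a b col s y
      = (((range (m + 1)).filter fun s => ∃ v, col v = s + 1 ∧ y ∈ Set.Icc (a v) (b v)).card : ℝ) := by
    unfold cov
    rw [← sum_boole]
  rw [h3]
  norm_cast
  have h4 : ((range (m + 1)).filter fun s => ∃ v, col v = s + 1 ∧ y ∈ Set.Icc (a v) (b v)).card
      ≤ ((univ.filter fun v => y ∈ Set.Icc (a v) (b v))).card := by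
    refine le_trans (card_le_card_of_surjOn (fun v => col v - 1) ?_) le_rfl
    intro s hs
    obtain ⟨w, hw1, hw2⟩ := (mem_filter.1 (mem_coe.1 hs)).2
    refine ⟨w, ?_, ?_⟩
    · simpa using hw2
    · simp [hw1]
  exact h4.trans (hK y _ fun v hv => (mem_filter.1 hv).2)

end wall

end FFInterval
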